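import Pool.Agent.Work.MP_440970_an.FX.Pre
import Pool.Agent.Work.MP_440970_an.Bdx.B09

/-!
# The flux certificate for `p = 13 / 35`
-/

namespace Pool.Agent.Work.MP_440970_an.FX

/-- the flux certificate for `p = 13 / 35` -/
theorem cert : ∃ M, ∃ Y, FC.FCert (13 / 35) M Y ∧ 0 < FC.gb M Y ![0, 1, 0] :=
  cert_of D1.ident ⟨D1.gok0, D1.gok1, D1.gok2, D1.gok3, D1.gok4, D1.gok5,
    D1.gok6, D1.gok7, D1.gok8, D1.gok9⟩

end Pool.Agent.Work.MP_440970_an.FX
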