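import Mathlib.Data.Nat.Notation

/-!
# Kernel program for the flux certificate

Polynomials in 15 variables with integer coefficients are lists of triples `(k, p, n)`: the
coefficient of the monomial `k` is `p - n`, and `k` is a product of primes, one for each variable.
All functions are total and sound for arbitrary lists; the lists in use are sorted.
-/

set_option autoImplicit false
set_option maxRecDepth 100000

namespace Pool.Agent.Work.MP_440970_an.FX

/-- lists of numbers -/
inductive NL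
  | Z : NL
  | C (a : ℕ) (l : NL) : NL

/-- polynomials -/
inductive PL
  | Z : PL
  | C (k p n : ℕ) (l : PL) : PL

/-- lists of polynomials -/
inductive LL
  | Z : LL
  | C (a : PL) (l : LL) : LL

/-! ### sums and products -/

/-- sum of two polynomials -/
noncomputable def mrg (a : PL) : PL → PL :=
  PL.rec (motive := fun _ => PL → PL) (fun b => b)
    (fun k p n t ih b =>
      PL.rec (motive := fun _ => PL) (PL.C k p n t)
        (fun k' p' n' t' ih' =>
          Bool.rec (motive := fun _ => PL)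
            (PL.C k' p' n' ih')
            (Bool.rec (motive := fun _ => PL) (PL.C k p n (ih (PL.C k' p' n' t')))
              (PL.C k (Nat.add p p') (Nat.add n n') (ih t')) (Nat.beq k k')) (Nat.ble k k'))
        b) a

/-- pairwise sums -/
noncomputable def prs (l : LL) : LL :=
  LL.rec (motive := fun _ => Bool → PL → LL)
    (fun b p => Bool.rec (motive := fun _ => LL) LL.Z (LL.C p LL.Z) b)
    (fun a _ ih b p => Bool.rec (motive := fun _ => LL) (ih true a)
      (LL.C (mrg p a) (ih false PL.Z)) b) l false PL.Z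

/-- iterated pairwise sums -/
noncomputable def itr (n : ℕ) (l : LL) : LL :=
  Nat.rec (motive := fun _ => LL → LL) (fun l => l) (fun _ ih l => ih (prs l)) n l

/-- sum of a list, from the right -/
noncomputable def fld (l : LL) : PL :=
  LL.rec (motive := fun _ => PL) PL.Z (fun a _ ih => mrg a ih) l

/-- sum of a list -/
noncomputable def sm (l : LL) : PL := fld (itr (nat_lit 14) l)

/-- product with the monomial `(k, p, n)` -/
noncomputable def tm (k p n : ℕ) (b : PL) : PL :=
  PL.rec (motive := fun _ => PL) PL.Z (fun k' p' n' _ ih =>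
    PL.C (Nat.mul k k') (Nat.add (Nat.mul p p') (Nat.mul n n'))
      (Nat.add (Nat.mul p n') (Nat.mul n p')) ih) b

/-- the products of the monomials of `a` with `b` -/
noncomputable def rws (a b : PL) : LL :=
  PL.rec (motive := fun _ => LL) LL.Z (fun k p n _ ih => LL.C (tm k p n b) ih) a

/-- product -/
noncomputable def mul (a b : PL) : PL := sm (rws a b)

/-- negative -/
noncomputable def neg (a : PL) : PL :=
  PL.rec (motive := fun _ => PL) PL.Z (fun k p n _ ih => PL.C k n p ih) a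

/-- all coefficients vanish -/
noncomputable def isZ (a : PL) : Bool :=
  PL.rec (motive := fun _ => Bool) true
    (fun _ p n _ ih => Bool.rec (motive := fun _ => Bool) false ih (Nat.beq p n)) a

/-- equality of polynomials -/
noncomputable def eqP (a b : PL) : Bool := isZ (mrg a (neg b))

/-! ### monomials

The variables are `0..14`: `f₀, k₀, f, f̄, k₁, k̄₁, k₂, k̄₂, t₀, t₁, t̄₁, t₂, t̄₂, t₃, t̄₃`.
A code is a list of hexadecimal digits (the variables). -/

/-- the prime of a variable -/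
def pr (v : ℕ) : ℕ :=
  Nat.land (Nat.shiftRight (nat_lit 0x2f2b29251f1d1713110d0b07050302) (Nat.mul (nat_lit 8) v))
    (nat_lit 255)

/-- the conjugate variable -/
def br (v : ℕ) : ℕ :=
  Nat.land (Nat.shiftRight (nat_lit 0xfdebc9a867452310) (Nat.mul (nat_lit 4) v)) (nat_lit 15)

/-- key of a code with `d` digits, the variables are changed by `f` -/
noncomputable def key (f : ℕ → ℕ) (d : ℕ) : ℕ → ℕ :=
  Nat.rec (motive := fun _ => ℕ → ℕ) (fun _ => nat_lit 1)
    (fun _ ih c => Nat.mul (pr (f (Nat.land c (nat_lit 15)))) (ih (Nat.shiftRight c (nat_lit 4)))) d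

/-- identity -/
def idn (v : ℕ) : ℕ := v

/-! ### jets -/

/-- the value, the derivatives in the directions `0`, `1 + 2 i`, `1 - 2 i` and the Laplacian -/
structure R5 where
  (v a p q l : PL)

/-- one term -/
def sg (v p n : ℕ) : PL := PL.C (pr v) p n PL.Z

/-- the constant `1` -/
def oneP : PL := PL.C (nat_lit 1) (nat_lit 1) (nat_lit 0) PL.Z

/-- constants have no derivatives -/
def oneR : R5 := ⟨oneP, PL.Z, PL.Z, PL.Z, PL.Z⟩

/-- product rule -/
noncomputable def mulR (r s : R5) : R5 :=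
  ⟨mul r.v s.v, mrg (mul r.v s.a) (mul r.a s.v), mrg (mul r.v s.p) (mul r.p s.v),
    mrg (mul r.v s.q) (mul r.q s.v),
    mrg (mrg (mul r.v s.l) (mul r.l s.v))
      (mrg (tm (nat_lit 1) (nat_lit 2) (nat_lit 0) (mul r.a s.a))
        (mrg (mul r.p s.q) (mul r.q s.p)))⟩

/-- the variables `v` and `w`, with coefficient `1` -/
def two (v w : ℕ) : PL := PL.C (pr v) (nat_lit 1) (nat_lit 0) (sg w (nat_lit 1) (nat_lit 0))

/-- the variable `v` with coefficient `1`, `-1`, `2` -/
def s1 (v : ℕ) : PL := sg v (nat_lit 1) (nat_lit 0)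
@[inherit_doc s1] def n1 (v : ℕ) : PL := sg v (nat_lit 0) (nat_lit 1)
@[inherit_doc s1] def s2 (v : ℕ) : PL := sg v (nat_lit 2) (nat_lit 0)

/-- case distinction -/
noncomputable def ife (v w : ℕ) (a b : R5) : R5 :=
  Bool.rec (motive := fun _ => R5) b a (Nat.beq v w)

/-- the jets of the variables -/
noncomputable def jv (v : ℕ) : R5 :=
  ife v (nat_lit 0) ⟨s1 (nat_lit 0), s1 (nat_lit 1), s1 (nat_lit 4), s1 (nat_lit 5), PL.Z⟩
  (ife v (nat_lit 1) ⟨s1 (nat_lit 1), two (nat_lit 1) (nat_lit 8), s1 (nat_lit 9),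
    s1 (nat_lit 10), s2 (nat_lit 8)⟩
  (ife v (nat_lit 2) ⟨s1 (nat_lit 2), s1 (nat_lit 4), s1 (nat_lit 6), n1 (nat_lit 1), PL.Z⟩
  (ife v (nat_lit 3) ⟨s1 (nat_lit 3), s1 (nat_lit 5), n1 (nat_lit 1), s1 (nat_lit 7), PL.Z⟩
  (ife v (nat_lit 4) ⟨s1 (nat_lit 4), two (nat_lit 4) (nat_lit 9), s1 (nat_lit 11),
    n1 (nat_lit 8), s2 (nat_lit 9)⟩
  (ife v (nat_lit 5) ⟨s1 (nat_lit 5), two (nat_lit 5) (nat_lit 10), n1 (nat_lit 8),
    s1 (nat_lit 12), s2 (nat_lit 10)⟩
  (ife v (nat_lit 6) ⟨s1 (nat_lit 6), two (nat_lit 6) (nat_lit 11), s1 (nat_lit 13),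
    n1 (nat_lit 9), s2 (nat_lit 11)⟩
  (ife v (nat_lit 7) ⟨s1 (nat_lit 7), two (nat_lit 7) (nat_lit 12), n1 (nat_lit 10),
    s1 (nat_lit 14), s2 (nat_lit 12)⟩
  ⟨PL.Z, PL.Z, PL.Z, PL.Z, PL.Z⟩)))))))

/-- the jet of the monomial with the code `c` -/
noncomputable def jm (f : ℕ → ℕ) (d : ℕ) : ℕ → R5 :=
  Nat.rec (motive := fun _ => ℕ → R5) (fun _ => oneR)
    (fun _ ih c => mulR (jv (f (Nat.land c (nat_lit 15)))) (ih (Nat.shiftRight c (nat_lit 4)))) d

/-- the terms `(p - n) g c`, for the terms `(c, p, n)` of `q` -/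
noncomputable def trs (g : ℕ → PL) (q : PL) : LL :=
  PL.rec (motive := fun _ => LL) LL.Z (fun c p n _ ih => LL.C (tm (nat_lit 1) p n (g c)) ih) q

/-- the components of the jet of the polynomial `q`, whose terms are `(c, p, n)` with codes `c` -/
noncomputable def qv (f : ℕ → ℕ) (d : ℕ) (q : PL) : PL := sm (trs (fun c => (jm f d c).v) q)
@[inherit_doc qv] noncomputable def qa (f : ℕ → ℕ) (d : ℕ) (q : PL) : PL :=
  sm (trs (fun c => (jm f d c).a) q)
@[inherit_doc qv] noncomputable def qp (f : ℕ → ℕ) (d : ℕ) (q : PL) : PL :=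
  sm (trs (fun c => (jm f d c).p) q)
@[inherit_doc qv] noncomputable def qq (f : ℕ → ℕ) (d : ℕ) (q : PL) : PL :=
  sm (trs (fun c => (jm f d c).q) q)
@[inherit_doc qv] noncomputable def ql (f : ℕ → ℕ) (d : ℕ) (q : PL) : PL :=
  sm (trs (fun c => (jm f d c).l) q)

/-- `n a` -/
noncomputable def sc (n : ℕ) (a : PL) : PL := tm (nat_lit 1) n (nat_lit 0) a

/-- `- n a` -/
noncomputable def nc (n : ℕ) (a : PL) : PL := tm (nat_lit 1) (nat_lit 0) n a

/-- first part of `2 τ² N^(2 - s) L`, `s = - σ / τ` -/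
noncomputable def lam1 (σ τ d e : ℕ) (N P R S : PL) : PL :=
  mrg
    (sc (Nat.mul (nat_lit 2) (Nat.mul σ (Nat.add σ τ)))
      (mul (mrg (mul (qa idn (nat_lit 2) N) (qa idn (nat_lit 2) N))
        (mul (qp idn (nat_lit 2) N) (qq idn (nat_lit 2) N))) (qv idn d P)))
    (nc (Nat.mul (Nat.add σ τ) τ)
      (mrg (sc (nat_lit 2) (mul (qa idn (nat_lit 2) N) (qv idn e R)))
        (mrg (mul (qq idn (nat_lit 2) N) (qv idn e S)) (mul (qp idn (nat_lit 2) N) (qv br e S)))))

/-- second part of `2 τ² N^(2 - s) L`, divided by `N` -/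
noncomputable def lam2 (σ τ d e : ℕ) (N P R S : PL) : PL :=
  mrg
    (mrg
      (nc (Nat.mul (nat_lit 2) (Nat.mul σ τ))
        (mrg (sc (nat_lit 2) (mul (qa idn (nat_lit 2) N) (qa idn d P)))
          (mrg (mul (qp idn (nat_lit 2) N) (qq idn d P))
            (mul (qq idn (nat_lit 2) N) (qp idn d P)))))
      (nc (Nat.mul (nat_lit 2) (Nat.mul σ τ)) (mul (ql idn (nat_lit 2) N) (qv idn d P))))
    (mrg
      (sc (Nat.mul τ τ) (mrg (sc (nat_lit 2) (qa idn e R)) (mrg (qq idn e S) (qp br e S))))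
      (sc (Nat.mul (nat_lit 2) (Nat.mul τ τ)) (mul (qv idn (nat_lit 2) N) (ql idn d P))))

/-- `2 τ² N^(2 - s) L` for `M = N^s P`, `Y₀ = N^(s-1) R`, `Y₁ + i Y₂ = N^(s-1) S` -/
noncomputable def lam (σ τ d e : ℕ) (N P R S : PL) : PL :=
  mrg (lam1 σ τ d e N P R S) (mul (qv idn (nat_lit 2) N) (lam2 σ τ d e N P R S))

/-! ### squares -/

/-- sum of a list of numbers -/
noncomputable def sumN (l : NL) : ℕ :=
  NL.rec (motive := fun _ => ℕ) (nat_lit 0) (fun u _ ih => Nat.add u ih) l

/-- `∑ 2 ^ (W j)`, `j` below the length of `l` -/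
noncomputable def ones (W : ℕ) (l : NL) : ℕ :=
  NL.rec (motive := fun _ => ℕ) (nat_lit 0)
    (fun _ _ ih => Nat.add (nat_lit 1) (Nat.shiftLeft ih W)) l

/-- length -/
noncomputable def len (l : NL) : ℕ :=
  NL.rec (motive := fun _ => ℕ) (nat_lit 0) (fun _ _ ih => Nat.succ ih) l

/-- all elements of `l` have only bits of `M` -/
noncomputable def allM (M : ℕ) (l : NL) : Bool :=
  NL.rec (motive := fun _ => Bool) true
    (fun u _ ih => Bool.rec (motive := fun _ => Bool) false ih (Nat.beq (Nat.land u M) u)) l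

/-- `∑ u, d u`, `d` the field of `u` at `s`, `m` the mask of a field -/
noncomputable def col (m s : ℕ) (l : NL) : ℕ :=
  NL.rec (motive := fun _ => ℕ) (nat_lit 0)
    (fun u _ ih => Nat.add (Nat.mul (Nat.land (Nat.shiftRight u s) m) u) ih) l

/-- keys of the codes -/
noncomputable def kys (f : ℕ → ℕ) (d : ℕ) (l : NL) : NL :=
  NL.rec (motive := fun _ => NL) NL.Z (fun c _ ih => NL.C (key f d c) ih) l

/-- the polynomial `∑ j, (d_j - D) k k_j`, `d_j` the fields of `g` -/
noncomputable def row (W m D k : ℕ) (ks : NL) (g : ℕ) : PL :=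
  NL.rec (motive := fun _ => ℕ → PL) (fun _ => PL.Z)
    (fun k' _ ih g => PL.C (Nat.mul k k') (Nat.land g m) D (ih (Nat.shiftRight g W))) ks g

/-- row of the matrix `Uᵀ U`: fields `D + ∑ k, U k i U k j` for the field position `s = W i`;
`S` the sum of the rows, `oS = o S`, `o1 = o ones`, `c = (r o² + D) ones` -/
noncomputable def grw (m S oS o1 c : ℕ) (us : NL) (s : ℕ) : ℕ :=
  Nat.sub (Nat.add (col m s us) c)
    (Nat.add oS (Nat.mul (Nat.land (Nat.shiftRight S s) m) o1))

/-- the polynomials of the rows with the codes `cs`, from the position `s` on -/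
noncomputable def grs (W m D d S oS o1 c : ℕ) (us ks cs : NL) (s : ℕ) : LL :=
  NL.rec (motive := fun _ => ℕ → LL) (fun _ => LL.Z)
    (fun e _ ih s => LL.C (row W m D (key br d e) ks (grw m S oS o1 c us s)) (ih (Nat.add s W)))
    cs s

/-- The polynomial `∑ k, |∑ j, U k j z_j|²` for the monomials `z_j` with the codes `cs`; the fields
of the numbers `us` are `U k j + o`, `o = 2 ^ b`. -/
noncomputable def grm (W b D d : ℕ) (us cs : NL) : PL :=
  sm (grs W (Nat.sub (Nat.shiftLeft (nat_lit 1) W) (nat_lit 1)) D d (sumN us)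
    (Nat.shiftLeft (sumN us) b) (Nat.shiftLeft (ones W cs) b)
    (Nat.mul (Nat.add (Nat.shiftLeft (len us) (Nat.mul (nat_lit 2) b)) D) (ones W cs))
    us (kys idn d cs) cs (nat_lit 0))

/-- validity of the data of `grm` -/
noncomputable def gok (W b D : ℕ) (us cs : NL) : Bool :=
  Bool.rec (motive := fun _ => Bool) false
    (Bool.rec (motive := fun _ => Bool) false
      (Bool.rec (motive := fun _ => Bool) false
        (allM (Nat.mul (Nat.sub (Nat.shiftLeft (nat_lit 2) b) (nat_lit 1)) (ones W cs)) us)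
        (Nat.ble (Nat.shiftLeft (len us) (Nat.mul (nat_lit 2) b)) D))
      (Nat.ble (Nat.add (Nat.mul (nat_lit 2) D) (nat_lit 1)) (Nat.shiftLeft (nat_lit 1) W)))
    (Nat.ble (Nat.shiftLeft (Nat.add (len us) (nat_lit 1)) (Nat.add b (nat_lit 1)))
      (Nat.shiftLeft (nat_lit 1) W))

/-- lists of items `(s, r, a, b)` -/
inductive IL
  | Z : IL
  | C (s r a b : ℕ) (l : IL) : IL

/-- one term -/
def mt (k p n : ℕ) : PL := PL.C k p n PL.Z

/-- `r |z_a|²` for `s = 0`, `r |z_a + z_b|²` for `s = 1`, `r |z_a - z_b|²` else -/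
noncomputable def itm (d s r a b : ℕ) : PL :=
  Bool.rec (motive := fun _ => PL)
    (mrg (mrg (mt (Nat.mul (key br d a) (key idn d a)) r (nat_lit 0))
        (mt (Nat.mul (key br d b) (key idn d b)) r (nat_lit 0)))
      (Bool.rec (motive := fun _ => PL)
        (mrg (mt (Nat.mul (key br d a) (key idn d b)) (nat_lit 0) r)
          (mt (Nat.mul (key br d b) (key idn d a)) (nat_lit 0) r))
        (mrg (mt (Nat.mul (key br d a) (key idn d b)) r (nat_lit 0))
          (mt (Nat.mul (key br d b) (key idn d a)) r (nat_lit 0)))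
        (Nat.beq s (nat_lit 1))))
    (mt (Nat.mul (key br d a) (key idn d a)) r (nat_lit 0))
    (Nat.beq s (nat_lit 0))

/-- the polynomials of the items -/
noncomputable def itl (d : ℕ) (l : IL) : LL :=
  IL.rec (motive := fun _ => LL) LL.Z (fun s r a b _ ih => LL.C (itm d s r a b) ih) l

/-- the sum of the items -/
noncomputable def its (d : ℕ) (l : IL) : PL := sm (itl d l)

end Pool.Agent.Work.MP_440970_an.FX
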