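import Mathlib
import Pool.Agent.Work.MP_440970_an.FX.Prog

/-!
# Soundness of the kernel program: sums, products, monomials
-/

set_option autoImplicit false

open Finset

namespace Pool.Agent.Work.MP_440970_an.FX

/-! ### monomials -/

/-- value of the monomial `k` -/
noncomputable def mon (x : ℕ → ℂ) (k : ℕ) : ℂ :=
  if k = 0 then 0 else ∏ v ∈ range 15, x v ^ k.factorization (pr v)

theorem mon_one (x : ℕ → ℂ) : mon x 1 = 1 := by
  simp [mon]

theorem mon_mul (x : ℕ → ℂ) (a b : ℕ) : mon x (a * b) = mon x a * mon x b := by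
  unfold mon
  by_cases ha : a = 0
  · simp [ha]
  by_cases hb : b = 0
  · simp [hb]
  rw [if_neg (mul_ne_zero ha hb), if_neg ha, if_neg hb, ← Finset.prod_mul_distrib]
  refine Finset.prod_congr rfl fun v _ => ?_
  rw [Nat.factorization_mul ha hb, Finsupp.add_apply, pow_add]

theorem pr_prime : ∀ v < 15, (pr v).Prime := by
  intro v hv
  interval_cases v <;> (norm_num [pr]; try decide)

theorem pr_inj : ∀ v < 15, ∀ u < 15, pr v = pr u → v = u := by
  decide

theorem mon_pr' (x : ℕ → ℂ) (v : ℕ) (hv : v < 15) : mon x (pr v) = x v := by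
  have h := pr_prime v hv
  unfold mon
  rw [if_neg h.ne_zero, Finset.prod_eq_single v]
  · rw [h.factorization_self, pow_one]
  · intro u hu huv
    rw [h.factorization, Finsupp.single_apply, if_neg, pow_zero]
    exact fun e => huv (pr_inj v hv u (Finset.mem_range.1 hu) e).symm
  · intro h'
    exact absurd (Finset.mem_range.2 hv) h'

theorem mon_pr (x : ℕ → ℂ) (hx : x 15 = 0) (v : ℕ) (hv : v < 16) : mon x (pr v) = x v := by
  rcases Nat.lt_succ_iff_lt_or_eq.1 hv with h | rfl
  · exact mon_pr' x v h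
  · rw [hx]
    exact if_pos rfl

/-- value of the code `c` with `d` digits -/
noncomputable def mc (x : ℕ → ℂ) (f : ℕ → ℕ) : ℕ → ℕ → ℂ
  | 0, _ => 1
  | d + 1, c => x (f (c % 16)) * mc x f d (c / 16)

theorem land_15 (c : ℕ) : Nat.land c 15 = c % 16 := by
  have := Nat.and_two_pow_sub_one_eq_mod c 4
  simpa using this

theorem shr_4 (c : ℕ) : Nat.shiftRight c 4 = c / 16 := by
  have := Nat.shiftRight_eq_div_pow c 4
  simpa using this

theorem key_zero (f : ℕ → ℕ) (c : ℕ) : key f 0 c = 1 := rfl

theorem key_succ (f : ℕ → ℕ) (d c : ℕ) :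
    key f (d + 1) c = pr (f (c % 16)) * key f d (c / 16) := by
  rw [← land_15, ← shr_4]
  rfl

theorem mon_key (x : ℕ → ℂ) (hx : x 15 = 0) (f : ℕ → ℕ) (hf : ∀ v < 16, f v < 16) (d c : ℕ) :
    mon x (key f d c) = mc x f d c := by
  induction d generalizing c with
  | zero => rw [key_zero, mon_one]; rfl
  | succ d ih =>
    rw [key_succ, mon_mul, mon_pr x hx _ (hf _ (Nat.mod_lt _ (by norm_num))), ih]
    rfl

theorem idn_lt : ∀ v < 16, idn v < 16 := fun v hv => hv

theorem br_lt : ∀ v < 16, br v < 16 := by decide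

theorem mc_br (x : ℕ → ℂ) (hc : ∀ v < 16, x (br v) = (starRingEnd ℂ) (x v)) (d c : ℕ) :
    mc x br d c = (starRingEnd ℂ) (mc x idn d c) := by
  induction d generalizing c with
  | zero => simp [mc]
  | succ d ih =>
    rw [mc, mc, ih, map_mul, hc _ (Nat.mod_lt _ (by norm_num))]
    rfl

/-! ### polynomials -/

/-- value of a polynomial -/
noncomputable def ev (x : ℕ → ℂ) : PL → ℂ
  | PL.Z => 0
  | PL.C k p n l => ((p : ℂ) - n) * mon x k + ev x l

/-- value of a list of polynomials -/
noncomputable def evL (x : ℕ → ℂ) : LL → ℂ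
  | LL.Z => 0
  | LL.C a l => ev x a + evL x l

@[simp] theorem ev_Z (x : ℕ → ℂ) : ev x PL.Z = 0 := rfl

@[simp] theorem ev_C (x : ℕ → ℂ) (k p n : ℕ) (l : PL) :
    ev x (PL.C k p n l) = ((p : ℂ) - n) * mon x k + ev x l := rfl

theorem mrg_Z (b : PL) : mrg PL.Z b = b := rfl

theorem mrg_C_Z (k p n : ℕ) (t : PL) : mrg (PL.C k p n t) PL.Z = PL.C k p n t := rfl

theorem mrg_C_C (k p n : ℕ) (t : PL) (k' p' n' : ℕ) (t' : PL) :
    mrg (PL.C k p n t) (PL.C k' p' n' t') =
      Bool.rec (motive := fun _ => PL)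
        (PL.C k' p' n' (mrg (PL.C k p n t) t'))
        (Bool.rec (motive := fun _ => PL) (PL.C k p n (mrg t (PL.C k' p' n' t')))
          (PL.C k (Nat.add p p') (Nat.add n n') (mrg t t')) (Nat.beq k k')) (Nat.ble k k') := rfl

theorem ev_mrg (x : ℕ → ℂ) (a b : PL) : ev x (mrg a b) = ev x a + ev x b := by
  induction a generalizing b with
  | Z => rw [mrg_Z, ev_Z, zero_add]
  | C k p n t ih =>
    induction b with
    | Z => rw [mrg_C_Z, ev_Z, add_zero]
    | C k' p' n' t' ih' =>
      rw [mrg_C_C]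
      cases h1 : Nat.ble k k' with
      | false =>
        show ev x (PL.C k' p' n' (mrg (PL.C k p n t) t')) = _
        rw [ev_C, ih', ev_C, ev_C]
        ring
      | true =>
        cases h2 : Nat.beq k k' with
        | false =>
          show ev x (PL.C k p n (mrg t (PL.C k' p' n' t'))) = _
          rw [ev_C, ih, ev_C, ev_C]
          ring
        | true =>
          have h3 : k = k' := Nat.eq_of_beq_eq_true h2
          subst h3
          show ev x (PL.C k (p + p') (n + n') (mrg t t')) = _
          rw [ev_C, ih, ev_C, ev_C]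
          push_cast
          ring

theorem evL_prs_aux (x : ℕ → ℂ) (l : LL) : ∀ (b : Bool) (p : PL),
    evL x (LL.rec (motive := fun _ => Bool → PL → LL)
      (fun b p => Bool.rec (motive := fun _ => LL) LL.Z (LL.C p LL.Z) b)
      (fun a _ ih b p => Bool.rec (motive := fun _ => LL) (ih true a)
        (LL.C (mrg p a) (ih false PL.Z)) b) l b p) = (if b then ev x p else 0) + evL x l := by
  induction l with
  | Z =>
    intro b p
    cases b
    · simp [evL]
    · simp [evL]
  | C a l ih =>
    intro b p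
    cases b
    · have := ih true a
      simp only [if_true] at this
      simp only [evL]
      rw [this]
      simp
    · have := ih false PL.Z
      simp only [evL]
      rw [this, ev_mrg]
      simp
      ring

theorem evL_prs (x : ℕ → ℂ) (l : LL) : evL x (prs l) = evL x l := by
  have := evL_prs_aux x l false PL.Z
  simpa [prs] using this

theorem evL_itr (x : ℕ → ℂ) (n : ℕ) (l : LL) : evL x (itr n l) = evL x l := by
  induction n generalizing l with
  | zero => rfl
  | succ n ih =>
    have h : itr (n + 1) l = itr n (prs l) := rfl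
    rw [h, ih, evL_prs]

theorem ev_fld (x : ℕ → ℂ) (l : LL) : ev x (fld l) = evL x l := by
  induction l with
  | Z => rfl
  | C a l ih =>
    have h : fld (LL.C a l) = mrg a (fld l) := rfl
    rw [h, ev_mrg, ih]
    rfl

@[simp] theorem ev_sm (x : ℕ → ℂ) (l : LL) : ev x (sm l) = evL x l := by
  rw [sm, ev_fld, evL_itr]

@[simp] theorem ev_tm (x : ℕ → ℂ) (k p n : ℕ) (b : PL) :
    ev x (tm k p n b) = ((p : ℂ) - n) * mon x k * ev x b := by
  induction b with
  | Z => simp [tm]
  | C k' p' n' l ih =>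
    have h : tm k p n (PL.C k' p' n' l) =
        PL.C (k * k') (p * p' + n * n') (p * n' + n * p') (tm k p n l) := rfl
    rw [h, ev_C, ih, mon_mul, ev_C]
    push_cast
    ring

theorem evL_rws (x : ℕ → ℂ) (a b : PL) : evL x (rws a b) = ev x a * ev x b := by
  induction a with
  | Z => simp [rws, evL]
  | C k p n l ih =>
    have h : rws (PL.C k p n l) b = LL.C (tm k p n b) (rws l b) := rfl
    rw [h, evL, ih, ev_tm, ev_C]
    ring

@[simp] theorem ev_mul (x : ℕ → ℂ) (a b : PL) : ev x (mul a b) = ev x a * ev x b := by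
  rw [mul, ev_sm, evL_rws]

@[simp] theorem ev_neg (x : ℕ → ℂ) (a : PL) : ev x (neg a) = -ev x a := by
  induction a with
  | Z => simp [neg]
  | C k p n l ih =>
    have h : neg (PL.C k p n l) = PL.C k n p (neg l) := rfl
    rw [h, ev_C, ih, ev_C]
    ring

theorem ev_isZ (x : ℕ → ℂ) (a : PL) (h : isZ a = true) : ev x a = 0 := by
  induction a with
  | Z => rfl
  | C k p n l ih =>
    have h1 : isZ (PL.C k p n l) =
        Bool.rec (motive := fun _ => Bool) false (isZ l) (Nat.beq p n) := rfl
    rw [h1] at h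
    cases h2 : Nat.beq p n with
    | false => rw [h2] at h; exact absurd h (by simp)
    | true =>
      rw [h2] at h
      have h3 : p = n := Nat.eq_of_beq_eq_true h2
      rw [ev_C, ih h, h3]
      ring

theorem ev_eqP (x : ℕ → ℂ) (a b : PL) (h : eqP a b = true) : ev x a = ev x b := by
  have := ev_isZ x _ h
  rw [ev_mrg, ev_neg] at this
  linear_combination this

@[simp] theorem ev_sc (x : ℕ → ℂ) (n : ℕ) (a : PL) : ev x (sc n a) = n * ev x a := by
  have h : ev x (sc n a) = ((n : ℂ) - (0 : ℕ)) * mon x 1 * ev x a := ev_tm x 1 n 0 a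
  rw [h, mon_one]
  push_cast
  ring

@[simp] theorem ev_nc (x : ℕ → ℂ) (n : ℕ) (a : PL) : ev x (nc n a) = -(n * ev x a) := by
  have h : ev x (nc n a) = (((0 : ℕ) : ℂ) - n) * mon x 1 * ev x a := ev_tm x 1 0 n a
  rw [h, mon_one]
  push_cast
  ring

end Pool.Agent.Work.MP_440970_an.FX
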