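import Pool.Agent.Work.MP_440970_an.FX.Poly
import Pool.Agent.Work.MP_440970_an.SC.Calc

/-!
# Soundness of the polynomial `lam`
-/

set_option autoImplicit false

open Finset
open scoped ContDiff

namespace Pool.Agent.Work.MP_440970_an.FX

open FC SC

theorem pc_conj {f : J8 → ℂ} (hf : Sm f) (k : Fin 8) (z : J8) :
    pc k (fun y => (starRingEnd ℂ) (f y)) z = (starRingEnd ℂ) (pc k f z) := by
  unfold pc
  have h : HasFDerivAt (fun y => (starRingEnd ℂ) (f y))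
      ((Complex.conjCLE : ℂ →L[ℝ] ℂ).comp (fderiv ℝ f z)) z :=
    (Complex.conjCLE : ℂ →L[ℝ] ℂ).hasFDerivAt.comp z (hf.da z).hasFDerivAt
  rw [h.fderiv]
  rfl

theorem DA_conj {f : J8 → ℂ} (hf : Sm f) (z : J8) (w : Fin 7 → ℝ) (i : Fin 3) :
    DA (fun y => (starRingEnd ℂ) (f y)) z w i = (starRingEnd ℂ) (DA f z w i) := by
  unfold DA
  rw [map_sum]
  refine Finset.sum_congr rfl fun k _ => ?_
  rw [pc_conj hf, map_mul, Complex.conj_ofReal]

theorem DR_re' {f : J8 → ℂ} (hf : Sm f) (z : J8) (w : Fin 7 → ℝ) (i : Fin 3) :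
    DR (fun y => (f y).re) z w i = (DA f z w i).re := DR_re hf z w i

theorem DR_im' {f : J8 → ℂ} (hf : Sm f) (z : J8) (w : Fin 7 → ℝ) (i : Fin 3) :
    DR (fun y => (f y).im) z w i = (DA f z w i).im := DR_im hf z w i

/-- the algebraic identity -/
theorem lam_alg (σ τ s n n0 n1 n2 ln : ℝ) (p p0 p1 p2 lp r r0 S S1 S2 : ℂ) (hs : σ = -s * τ) :
    (((2 * (σ * (σ + τ)) : ℝ) : ℂ) * (((n0 : ℂ) * n0 + (n1 + Complex.I * n2) *
      (n1 - Complex.I * n2)) * p) +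
      -((((σ + τ) * τ : ℝ) : ℂ) * (2 * (n0 * r) + ((n1 - Complex.I * n2) * S +
        (n1 + Complex.I * n2) * (starRingEnd ℂ) S))) +
      (n : ℂ) * ((-(((2 * (σ * τ) : ℝ) : ℂ) * (2 * (n0 * p0) +
        ((n1 + Complex.I * n2) * (p1 - Complex.I * p2) +
          (n1 - Complex.I * n2) * (p1 + Complex.I * p2)))) +
        -(((2 * (σ * τ) : ℝ) : ℂ) * (ln * p))) +
        (((τ * τ : ℝ) : ℂ) * (2 * r0 + ((S1 - Complex.I * S2) +
          ((starRingEnd ℂ) S1 + Complex.I * (starRingEnd ℂ) S2))) +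
        ((2 * (τ * τ) : ℝ) : ℂ) * (n * lp)))).re =
    2 * τ ^ 2 * (s * (s - 1) * p.re * (n0 ^ 2 + n1 ^ 2 + n2 ^ 2) +
      2 * s * n * (n0 * p0.re + n1 * p1.re + n2 * p2.re) + s * n * p.re * ln + n ^ 2 * lp.re +
      ((s - 1) * (r.re * n0 + S.re * n1 + S.im * n2) + n * (r0.re + S1.re + S2.im))) := by
  subst hs
  simp only [Complex.add_re, Complex.mul_re, Complex.sub_re, Complex.neg_re, Complex.ofReal_re,
    Complex.ofReal_im, Complex.add_im, Complex.mul_im, Complex.sub_im, Complex.neg_im,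
    Complex.I_re, Complex.I_im, Complex.conj_re, Complex.conj_im, Complex.re_ofNat,
    Complex.im_ofNat]
  ring

section

variable (σ τ d e : ℕ) (qN qP qR qS : PL)

/-- the quadratic form `N` -/
noncomputable def Nf (z : J8) : ℝ := (pf idn 2 qN z).re

/-- the polynomial `P` -/
noncomputable def Pf (z : J8) : ℝ := (pf idn d qP z).re

/-- the polynomials `R` -/
noncomputable def Rf : Fin 3 → J8 → ℝ :=
  ![fun z => (pf idn e qR z).re, fun z => (pf idn e qS z).re, fun z => (pf idn e qS z).im]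

theorem DA_real {f : J8 → ℂ} (hf : Sm f) (h : ∀ z, (f z).im = 0) (z : J8) (w : Fin 7 → ℝ)
    (i : Fin 3) : DA f z w i = ((DR (fun y => (f y).re) z w i : ℝ) : ℂ) := by
  have h1 : (fun y => (f y).im) = fun _ => 0 := funext h
  have h2 : DR (fun y => (f y).im) z w i = 0 := by
    rw [h1]
    unfold DR pz
    simp
  rw [DR_im' hf] at h2
  rw [DR_re' hf]
  exact Complex.ext rfl h2

theorem LA_real {f : J8 → ℂ} (hf : Sm f) (h : ∀ z, (f z).im = 0) (z : J8) (w : Fin 7 → ℝ) :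
    LA f z w = ((LM (fun y => (f y).re) z w : ℝ) : ℂ) := by
  have h0 : (fun y => -Complex.I * f y) = fun y => -Complex.I * ((f y).re : ℂ) := by
    funext y
    congr 1
    exact Complex.ext rfl (h y)
  have h2 : (LA (fun y => -Complex.I * f y) z w).re = 0 := by
    rw [← LM_re (contDiff_const.mul hf)]
    have h3 : (fun y => (-Complex.I * f y).re) = fun _ => 0 := by
      funext y
      simp [h y]
    rw [h3]
    unfold LM
    have h4 : ∀ l, pz l (fun _ : J8 => (0 : ℝ)) = fun _ => 0 := by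
      intro l
      funext y
      unfold pz
      simp
    simp only [h4, zero_mul, Finset.sum_const_zero, add_zero]
  rw [LA_cmul _ hf] at h2
  rw [LM_re hf]
  refine Complex.ext rfl ?_
  simpa using h2

theorem lam_re (hN : ∀ z, (pf idn 2 qN z).im = 0) (s : ℝ) (hs : (σ : ℝ) = -s * τ) (z : J8)
    (w : Fin 7 → ℝ) :
    (ev (X z w) (lam σ τ d e qN qP qR qS)).re =
    2 * (τ : ℝ) ^ 2 * (s * (s - 1) * Pf d qP z * (∑ i, DR (Nf qN) z w i ^ 2) +
      2 * s * Nf qN z * (∑ i, DR (Nf qN) z w i * DR (Pf d qP) z w i) +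
      s * Nf qN z * Pf d qP z * LM (Nf qN) z w + Nf qN z ^ 2 * LM (Pf d qP) z w +
      ((s - 1) * (∑ i, Rf e qR qS i z * DR (Nf qN) z w i) +
        Nf qN z * ∑ i, DR (Rf e qR qS i) z w i)) := by
  have sN := sm_pf idn 2 qN
  have sP := sm_pf idn d qP
  have sR := sm_pf idn e qR
  have sS := sm_pf idn e qS
  have n0 := DA_real sN hN z w 0
  have n1 := DA_real sN hN z w 1
  have n2 := DA_real sN hN z w 2
  have ln := LA_real sN hN z w
  have hn : pf idn 2 qN z = ((Nf qN z : ℝ) : ℂ) := Complex.ext rfl (hN z)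
  have hb : pf br e qS = fun y => (starRingEnd ℂ) (pf idn e qS y) := funext (pf_br e qS)
  have key := lam_alg σ τ s (Nf qN z) (DR (Nf qN) z w 0) (DR (Nf qN) z w 1) (DR (Nf qN) z w 2)
    (LM (Nf qN) z w) (pf idn d qP z) (DA (pf idn d qP) z w 0) (DA (pf idn d qP) z w 1)
    (DA (pf idn d qP) z w 2) (LA (pf idn d qP) z w) (pf idn e qR z) (DA (pf idn e qR) z w 0)
    (pf idn e qS z) (DA (pf idn e qS) z w 1) (DA (pf idn e qS) z w 2) hs
  have h : ev (X z w) (lam σ τ d e qN qP qR qS) =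
      (((2 * (σ * (σ + τ)) : ℝ) : ℂ) * ((((DR (Nf qN) z w 0 : ℝ) : ℂ) * (DR (Nf qN) z w 0 : ℝ) +
      ((DR (Nf qN) z w 1 : ℝ) + Complex.I * (DR (Nf qN) z w 2 : ℝ)) *
      ((DR (Nf qN) z w 1 : ℝ) - Complex.I * (DR (Nf qN) z w 2 : ℝ))) * pf idn d qP z) +
      -((((σ + τ) * τ : ℝ) : ℂ) * (2 * ((DR (Nf qN) z w 0 : ℝ) * pf idn e qR z) +
        (((DR (Nf qN) z w 1 : ℝ) - Complex.I * (DR (Nf qN) z w 2 : ℝ)) * pf idn e qS z +
        ((DR (Nf qN) z w 1 : ℝ) + Complex.I * (DR (Nf qN) z w 2 : ℝ)) *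
          (starRingEnd ℂ) (pf idn e qS z)))) +
      ((Nf qN z : ℝ) : ℂ) * ((-(((2 * (σ * τ) : ℝ) : ℂ) *
        (2 * ((DR (Nf qN) z w 0 : ℝ) * DA (pf idn d qP) z w 0) +
        (((DR (Nf qN) z w 1 : ℝ) + Complex.I * (DR (Nf qN) z w 2 : ℝ)) *
          (DA (pf idn d qP) z w 1 - Complex.I * DA (pf idn d qP) z w 2) +
          ((DR (Nf qN) z w 1 : ℝ) - Complex.I * (DR (Nf qN) z w 2 : ℝ)) *
          (DA (pf idn d qP) z w 1 + Complex.I * DA (pf idn d qP) z w 2)))) +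
        -(((2 * (σ * τ) : ℝ) : ℂ) * ((LM (Nf qN) z w : ℝ) * pf idn d qP z))) +
        (((τ * τ : ℝ) : ℂ) * (2 * DA (pf idn e qR) z w 0 +
          ((DA (pf idn e qS) z w 1 - Complex.I * DA (pf idn e qS) z w 2) +
          ((starRingEnd ℂ) (DA (pf idn e qS) z w 1) +
            Complex.I * (starRingEnd ℂ) (DA (pf idn e qS) z w 2)))) +
        ((2 * (τ * τ) : ℝ) : ℂ) * ((Nf qN z : ℝ) * LA (pf idn d qP) z w)))) := by
    unfold lam lam1 lam2
    simp only [ev_mrg, ev_sc, ev_nc, ev_mul, ev_qv z w idn idn_lt, ev_qv z w br br_lt,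
      ev_qa z w idn idn_lt, ev_qp z w idn idn_lt, ev_qp z w br br_lt, ev_qq z w idn idn_lt,
      ev_ql z w idn idn_lt, hb, DA_conj sS, hn, n0, n1, n2, ln]
    have k1 : ((Nat.mul (nat_lit 2) (Nat.mul σ (Nat.add σ τ)) : ℕ) : ℂ) =
        ((2 * (σ * (σ + τ)) : ℝ) : ℂ) := by
      have : Nat.mul (nat_lit 2) (Nat.mul σ (Nat.add σ τ)) = 2 * (σ * (σ + τ)) := rfl
      rw [this]
      push_cast
      ring
    have k2 : ((Nat.mul (Nat.add σ τ) τ : ℕ) : ℂ) = (((σ + τ) * τ : ℝ) : ℂ) := by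
      have : Nat.mul (Nat.add σ τ) τ = (σ + τ) * τ := rfl
      rw [this]
      push_cast
      ring
    have k3 : ((Nat.mul (nat_lit 2) (Nat.mul σ τ) : ℕ) : ℂ) = ((2 * (σ * τ) : ℝ) : ℂ) := by
      have : Nat.mul (nat_lit 2) (Nat.mul σ τ) = 2 * (σ * τ) := rfl
      rw [this]
      push_cast
      ring
    have k4 : ((Nat.mul τ τ : ℕ) : ℂ) = ((τ * τ : ℝ) : ℂ) := by
      have : Nat.mul τ τ = τ * τ := rfl
      rw [this]
      push_cast
      ring
    have k5 : ((Nat.mul (nat_lit 2) (Nat.mul τ τ) : ℕ) : ℂ) = ((2 * (τ * τ) : ℝ) : ℂ) := by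
      have : Nat.mul (nat_lit 2) (Nat.mul τ τ) = 2 * (τ * τ) := rfl
      rw [this]
      push_cast
      ring
    have k6 : ((nat_lit 2 : ℕ) : ℂ) = 2 := Nat.cast_ofNat (R := ℂ) (n := 2)
    rw [k1, k2, k3, k4, k5, k6]
    rfl
  rw [h, key]
  rw [Fin.sum_univ_three, Fin.sum_univ_three, Fin.sum_univ_three, Fin.sum_univ_three]
  have r0 : DR (Rf e qR qS 0) z w 0 = (DA (pf idn e qR) z w 0).re := DR_re' sR z w 0
  have r1 : DR (Rf e qR qS 1) z w 1 = (DA (pf idn e qS) z w 1).re := DR_re' sS z w 1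
  have r2 : DR (Rf e qR qS 2) z w 2 = (DA (pf idn e qS) z w 2).im := DR_im' sS z w 2
  have p0 : DR (Pf d qP) z w 0 = (DA (pf idn d qP) z w 0).re := DR_re' sP z w 0
  have p1 : DR (Pf d qP) z w 1 = (DA (pf idn d qP) z w 1).re := DR_re' sP z w 1
  have p2 : DR (Pf d qP) z w 2 = (DA (pf idn d qP) z w 2).re := DR_re' sP z w 2
  have lp : LM (Pf d qP) z w = (LA (pf idn d qP) z w).re := LM_re sP z w
  have e0 : Rf e qR qS 0 z = (pf idn e qR z).re := rfl
  have e1 : Rf e qR qS 1 z = (pf idn e qS z).re := rfl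
  have e2 : Rf e qR qS 2 z = (pf idn e qS z).im := rfl
  have e3 : Pf d qP z = (pf idn d qP z).re := rfl
  rw [r0, r1, r2, p0, p1, p2, lp, e0, e1, e2, e3]

end

end Pool.Agent.Work.MP_440970_an.FX
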