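import Pool.Agent.Work.MP_440970_an.FC.Defs

/-!
# Jets of complex valued functions on the space of jets
-/

set_option autoImplicit false

open Finset
open scoped ContDiff

namespace Pool.Agent.Work.MP_440970_an.FX

open FC

/-- partial derivatives of complex functions -/
noncomputable def pc (k : Fin 8) (f : J8 → ℂ) (z : J8) : ℂ := fderiv ℝ f z (Pi.single k 1)

/-- smooth functions -/
abbrev Sm (f : J8 → ℂ) : Prop := ContDiff ℝ ∞ f

/-- derivatives in the directions of the jet -/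
noncomputable def DA (f : J8 → ℂ) (z : J8) (w : Fin 7 → ℝ) (i : Fin 3) : ℂ :=
  ∑ k, pc k f z * (Am z w i k : ℝ)

/-- the Laplacian -/
noncomputable def LA (f : J8 → ℂ) (z : J8) (w : Fin 7 → ℝ) : ℂ :=
  ∑ k, ∑ l, pc k (pc l f) z * ((∑ i, Am z w i k * Am z w i l : ℝ) : ℂ) +
    ∑ k, pc k f z * (Bm w k : ℝ)

theorem Sm.pc {f : J8 → ℂ} (hf : Sm f) (k : Fin 8) : Sm (pc k f) :=
  (hf.fderiv_right (m := ∞) (by norm_num)).clm_apply contDiff_const

theorem Sm.da {f : J8 → ℂ} (hf : Sm f) (z : J8) : DifferentiableAt ℝ f z :=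
  (hf.differentiable (by norm_num)).differentiableAt

theorem pc_mul {f g : J8 → ℂ} (hf : Sm f) (hg : Sm g) (k : Fin 8) (z : J8) :
    pc k (fun y => f y * g y) z = pc k f z * g z + f z * pc k g z := by
  unfold pc
  have := fderiv_fun_mul (𝕜 := ℝ) (hf.da z) (hg.da z)
  rw [this]
  simp
  ring

theorem pc_add {f g : J8 → ℂ} (hf : Sm f) (hg : Sm g) (k : Fin 8) (z : J8) :
    pc k (fun y => f y + g y) z = pc k f z + pc k g z := by
  unfold pc
  rw [fderiv_fun_add (hf.da z) (hg.da z)]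
  rfl

theorem pc_const (c : ℂ) (k : Fin 8) (z : J8) : pc k (fun _ => c) z = 0 := by
  unfold pc
  rw [fderiv_fun_const]
  rfl

theorem DA_mul {f g : J8 → ℂ} (hf : Sm f) (hg : Sm g) (z : J8) (w : Fin 7 → ℝ) (i : Fin 3) :
    DA (fun y => f y * g y) z w i = f z * DA g z w i + DA f z w i * g z := by
  unfold DA
  rw [Finset.mul_sum, Finset.sum_mul, ← Finset.sum_add_distrib]
  refine Finset.sum_congr rfl fun k _ => ?_
  rw [pc_mul hf hg]
  ring

theorem DA_add {f g : J8 → ℂ} (hf : Sm f) (hg : Sm g) (z : J8) (w : Fin 7 → ℝ) (i : Fin 3) :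
    DA (fun y => f y + g y) z w i = DA f z w i + DA g z w i := by
  unfold DA
  rw [← Finset.sum_add_distrib]
  refine Finset.sum_congr rfl fun k _ => ?_
  rw [pc_add hf hg]
  ring

theorem DA_const (c : ℂ) (z : J8) (w : Fin 7 → ℝ) (i : Fin 3) : DA (fun _ => c) z w i = 0 := by
  unfold DA
  simp [pc_const]

theorem pc2_mul {f g : J8 → ℂ} (hf : Sm f) (hg : Sm g) (k l : Fin 8) (z : J8) :
    pc k (pc l (fun y => f y * g y)) z = pc k (pc l f) z * g z + pc l f z * pc k g z +
      pc k f z * pc l g z + f z * pc k (pc l g) z := by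
  have h : pc l (fun y => f y * g y) = fun y => pc l f y * g y + f y * pc l g y :=
    funext fun y => pc_mul hf hg l y
  rw [h, pc_add ((hf.pc l).mul hg) (hf.mul (hg.pc l)), pc_mul (hf.pc l) hg, pc_mul hf (hg.pc l)]
  ring

theorem pc2_add {f g : J8 → ℂ} (hf : Sm f) (hg : Sm g) (k l : Fin 8) (z : J8) :
    pc k (pc l (fun y => f y + g y)) z = pc k (pc l f) z + pc k (pc l g) z := by
  have h : pc l (fun y => f y + g y) = fun y => pc l f y + pc l g y :=
    funext fun y => pc_add hf hg l y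
  rw [h, pc_add (hf.pc l) (hg.pc l)]

theorem pc2_const (c : ℂ) (k l : Fin 8) (z : J8) : pc k (pc l (fun _ => c)) z = 0 := by
  have h : pc l (fun _ : J8 => c) = fun _ => 0 := funext fun y => pc_const c l y
  rw [h, pc_const]

theorem LA_add {f g : J8 → ℂ} (hf : Sm f) (hg : Sm g) (z : J8) (w : Fin 7 → ℝ) :
    LA (fun y => f y + g y) z w = LA f z w + LA g z w := by
  unfold LA
  simp only [pc2_add hf hg, pc_add hf hg, add_mul, Finset.sum_add_distrib]
  ring

theorem LA_const (c : ℂ) (z : J8) (w : Fin 7 → ℝ) : LA (fun _ => c) z w = 0 := by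
  unfold LA
  simp [pc_const, pc2_const]

theorem LA_mul {f g : J8 → ℂ} (hf : Sm f) (hg : Sm g) (z : J8) (w : Fin 7 → ℝ) :
    LA (fun y => f y * g y) z w = f z * LA g z w + LA f z w * g z +
      2 * ∑ i, DA f z w i * DA g z w i := by
  have h1 : ∑ i, DA f z w i * DA g z w i =
      ∑ k, ∑ l, pc k f z * pc l g z * ((∑ i, Am z w i k * Am z w i l : ℝ) : ℂ) := by
    unfold DA
    simp only [Finset.sum_mul_sum]
    rw [Finset.sum_comm]
    refine Finset.sum_congr rfl fun k _ => ?_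
    rw [Finset.sum_comm]
    refine Finset.sum_congr rfl fun l _ => ?_
    push_cast
    rw [Finset.mul_sum]
    exact Finset.sum_congr rfl fun i _ => by ring
  have h2 : ∑ i, DA f z w i * DA g z w i =
      ∑ k, ∑ l, pc l f z * pc k g z * ((∑ i, Am z w i k * Am z w i l : ℝ) : ℂ) := by
    rw [h1, Finset.sum_comm]
    refine Finset.sum_congr rfl fun k _ => Finset.sum_congr rfl fun l _ => ?_
    congr 2
    exact Finset.sum_congr rfl fun i _ => mul_comm _ _
  have e1 : ∑ k, ∑ l, pc k (pc l (fun y => f y * g y)) z *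
      ((∑ i, Am z w i k * Am z w i l : ℝ) : ℂ) =
      (∑ k, ∑ l, pc k (pc l f) z * ((∑ i, Am z w i k * Am z w i l : ℝ) : ℂ)) * g z +
      (∑ k, ∑ l, pc l f z * pc k g z * ((∑ i, Am z w i k * Am z w i l : ℝ) : ℂ)) +
      (∑ k, ∑ l, pc k f z * pc l g z * ((∑ i, Am z w i k * Am z w i l : ℝ) : ℂ)) +
      f z * (∑ k, ∑ l, pc k (pc l g) z * ((∑ i, Am z w i k * Am z w i l : ℝ) : ℂ)) := by
    simp only [Finset.sum_mul, Finset.mul_sum, ← Finset.sum_add_distrib]
    refine Finset.sum_congr rfl fun k _ => Finset.sum_congr rfl fun l _ => ?_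
    rw [pc2_mul hf hg]
    ring
  have e2 : ∑ k, pc k (fun y => f y * g y) z * ((Bm w k : ℝ) : ℂ) =
      (∑ k, pc k f z * ((Bm w k : ℝ) : ℂ)) * g z + f z * ∑ k, pc k g z * ((Bm w k : ℝ) : ℂ) := by
    simp only [Finset.sum_mul, Finset.mul_sum, ← Finset.sum_add_distrib]
    refine Finset.sum_congr rfl fun k _ => ?_
    rw [pc_mul hf hg]
    ring
  unfold LA
  rw [e1, e2, ← h1, ← h2]
  ring

/-! ### real parts -/

theorem pz_re {f : J8 → ℂ} (hf : Sm f) (k : Fin 8) (z : J8) :
    pz k (fun y => (f y).re) z = (pc k f z).re := by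
  unfold pz pc
  have h : HasFDerivAt (fun y => (f y).re) (Complex.reCLM.comp (fderiv ℝ f z)) z :=
    Complex.reCLM.hasFDerivAt.comp z (hf.da z).hasFDerivAt
  rw [h.fderiv]
  rfl

theorem pz_im {f : J8 → ℂ} (hf : Sm f) (k : Fin 8) (z : J8) :
    pz k (fun y => (f y).im) z = (pc k f z).im := by
  unfold pz pc
  have h : HasFDerivAt (fun y => (f y).im) (Complex.imCLM.comp (fderiv ℝ f z)) z :=
    Complex.imCLM.hasFDerivAt.comp z (hf.da z).hasFDerivAt
  rw [h.fderiv]
  rfl

theorem DR_re {f : J8 → ℂ} (hf : Sm f) (z : J8) (w : Fin 7 → ℝ) (i : Fin 3) :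
    ∑ k, pz k (fun y => (f y).re) z * Am z w i k = (DA f z w i).re := by
  unfold DA
  rw [Complex.re_sum]
  refine Finset.sum_congr rfl fun k _ => ?_
  rw [pz_re hf, Complex.re_mul_ofReal]

theorem DR_im {f : J8 → ℂ} (hf : Sm f) (z : J8) (w : Fin 7 → ℝ) (i : Fin 3) :
    ∑ k, pz k (fun y => (f y).im) z * Am z w i k = (DA f z w i).im := by
  unfold DA
  rw [Complex.im_sum]
  refine Finset.sum_congr rfl fun k _ => ?_
  rw [pz_im hf, Complex.im_mul_ofReal]

theorem LM_re {f : J8 → ℂ} (hf : Sm f) (z : J8) (w : Fin 7 → ℝ) :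
    LM (fun y => (f y).re) z w = (LA f z w).re := by
  unfold LA LM
  rw [Complex.add_re, Complex.re_sum, Complex.re_sum]
  congr 1
  · refine Finset.sum_congr rfl fun k _ => ?_
    rw [Complex.re_sum]
    refine Finset.sum_congr rfl fun l _ => ?_
    have h : pz l (fun y => (f y).re) = fun y => (pc l f y).re := funext fun y => pz_re hf l y
    rw [h, pz_re (hf.pc l), Complex.re_mul_ofReal]
  · refine Finset.sum_congr rfl fun k _ => ?_
    rw [pz_re hf, Complex.re_mul_ofReal]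

end Pool.Agent.Work.MP_440970_an.FX
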