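import Pool.Agent.Work.MP_440970_an.FX.Sem
import Pool.Agent.Work.MP_440970_an.FX.Cx

/-!
# Soundness of the jets of polynomials
-/

set_option autoImplicit false
set_option linter.unusedSimpArgs false

open Finset
open scoped ContDiff

namespace Pool.Agent.Work.MP_440970_an.FX

open FC

/-- coefficients of the complex coordinates -/
noncomputable def cf : ℕ → Fin 8 → ℂ
  | 0 => ![1, 0, 0, 0, 0, 0, 0, 0]
  | 1 => ![0, 0, 0, 0, 0, -1, 0, -1]
  | 2 => ![0, 1, Complex.I, 0, 0, 0, 0, 0]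
  | 3 => ![0, 1, -Complex.I, 0, 0, 0, 0, 0]
  | 4 => ![0, 0, 0, 1, Complex.I, 0, 0, 0]
  | 5 => ![0, 0, 0, 1, -Complex.I, 0, 0, 0]
  | 6 => ![0, 0, 0, 0, 0, 1, 2 * Complex.I, -1]
  | 7 => ![0, 0, 0, 0, 0, 1, -(2 * Complex.I), -1]
  | _ => 0

/-- the complex coordinates `f₀, k₀, f, f̄, k₁, k̄₁, k₂, k̄₂` -/
noncomputable def U (v : ℕ) (z : J8) : ℂ := ∑ k, (z k : ℂ) * cf v k

/-- the complex coordinates of the third order part -/
noncomputable def V (v : ℕ) (w : Fin 7 → ℝ) : ℂ :=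
  match v with
  | 8 => -w 0 - w 2
  | 9 => (-w 3 - w 5) + (-w 4 - w 6) * Complex.I
  | 10 => (-w 3 - w 5) - (-w 4 - w 6) * Complex.I
  | 11 => (w 0 - w 2) + 2 * w 1 * Complex.I
  | 12 => (w 0 - w 2) - 2 * w 1 * Complex.I
  | 13 => (w 3 - 3 * w 5) + (3 * w 4 - w 6) * Complex.I
  | 14 => (w 3 - 3 * w 5) - (3 * w 4 - w 6) * Complex.I
  | _ => 0

/-- the variables -/
noncomputable def X (z : J8) (w : Fin 7 → ℝ) (v : ℕ) : ℂ := U v z + V v w

theorem X_lt (z : J8) (w : Fin 7 → ℝ) (v : ℕ) (hv : v < 8) : X z w v = U v z := by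
  unfold X
  interval_cases v <;> simp [V]

theorem X_ge (z : J8) (w : Fin 7 → ℝ) (v : ℕ) (hv : 8 ≤ v) : X z w v = V v w := by
  unfold X
  have : U v z = 0 := by
    unfold U
    match v, hv with
    | v + 8, _ => simp [cf]
  rw [this, zero_add]

theorem U_ge (v : ℕ) (hv : 8 ≤ v) (z : J8) : U v z = 0 := by
  unfold U
  match v, hv with
  | v + 8, _ => simp [cf]

theorem X_15 (z : J8) (w : Fin 7 → ℝ) : X z w 15 = 0 := by
  rw [X_ge z w 15 (by norm_num)]
  rfl

/-- the complex coordinates as linear maps -/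
noncomputable def UL (v : ℕ) : J8 →L[ℝ] ℂ :=
  ∑ k, (ContinuousLinearMap.proj (R := ℝ) k : J8 →L[ℝ] ℝ).smulRight (cf v k)

theorem U_eq (v : ℕ) : U v = UL v := by
  funext z
  simp [U, UL, Complex.real_smul]

theorem sm_U (v : ℕ) : Sm (U v) := by
  rw [U_eq]
  exact (UL v).contDiff

theorem pc_U (v : ℕ) (k : Fin 8) (z : J8) : pc k (U v) z = cf v k := by
  unfold pc
  rw [U_eq, ContinuousLinearMap.fderiv]
  simp [UL, Pi.single_apply]

theorem DA_U (v : ℕ) (z : J8) (w : Fin 7 → ℝ) (i : Fin 3) :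
    DA (U v) z w i = ∑ k, cf v k * (Am z w i k : ℝ) := by
  unfold DA
  simp only [pc_U]

theorem LA_U (v : ℕ) (z : J8) (w : Fin 7 → ℝ) :
    LA (U v) z w = ∑ k, cf v k * (Bm w k : ℝ) := by
  unfold LA
  have h : ∀ l, pc l (U v) = fun _ => cf v l := fun l => funext fun y => pc_U v l y
  simp only [h, pc_const, zero_mul, Finset.sum_const_zero, zero_add]

/-- `r` is the jet of `f` -/
structure HJ (f : J8 → ℂ) (z : J8) (w : Fin 7 → ℝ) (r : R5) : Prop where
  sm : Sm f
  v : ev (X z w) r.v = f z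
  a : ev (X z w) r.a = DA f z w 0
  p : ev (X z w) r.p = DA f z w 1 + Complex.I * DA f z w 2
  q : ev (X z w) r.q = DA f z w 1 - Complex.I * DA f z w 2
  l : ev (X z w) r.l = LA f z w

theorem HJ.mul {f g : J8 → ℂ} {z : J8} {w : Fin 7 → ℝ} {r s : R5} (hf : HJ f z w r)
    (hg : HJ g z w s) : HJ (fun y => f y * g y) z w (mulR r s) := by
  refine ⟨hf.sm.mul hg.sm, ?_, ?_, ?_, ?_, ?_⟩
  · show ev _ (FX.mul r.v s.v) = _
    rw [ev_mul, hf.v, hg.v]
  · show ev _ (mrg (FX.mul r.v s.a) (FX.mul r.a s.v)) = _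
    rw [ev_mrg, ev_mul, ev_mul, hf.v, hg.v, hf.a, hg.a, DA_mul hf.sm hg.sm]
  · show ev _ (mrg (FX.mul r.v s.p) (FX.mul r.p s.v)) = _
    rw [ev_mrg, ev_mul, ev_mul, hf.v, hg.v, hf.p, hg.p, DA_mul hf.sm hg.sm, DA_mul hf.sm hg.sm]
    ring
  · show ev _ (mrg (FX.mul r.v s.q) (FX.mul r.q s.v)) = _
    rw [ev_mrg, ev_mul, ev_mul, hf.v, hg.v, hf.q, hg.q, DA_mul hf.sm hg.sm, DA_mul hf.sm hg.sm]
    ring
  · show ev _ (mrg (mrg (FX.mul r.v s.l) (FX.mul r.l s.v))
      (mrg (tm 1 2 0 (FX.mul r.a s.a)) (mrg (FX.mul r.p s.q) (FX.mul r.q s.p)))) = _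
    simp only [ev_mrg, ev_mul, ev_tm, mon_one, hf.v, hg.v, hf.a, hg.a, hf.p, hg.p, hf.q, hg.q,
      hf.l, hg.l, LA_mul hf.sm hg.sm, Fin.sum_univ_three]
    push_cast
    have hI : Complex.I * Complex.I = -1 := Complex.I_mul_I
    linear_combination (-2 * DA f z w 2 * DA g z w 2) * hI

theorem HJ.one (z : J8) (w : Fin 7 → ℝ) : HJ (fun _ => 1) z w oneR := by
  refine ⟨contDiff_const, ?_, ?_, ?_, ?_, ?_⟩
  · show ev _ (PL.C 1 1 0 PL.Z) = _
    rw [ev_C, mon_one]
    simp
  all_goals simp [oneR, DA_const, LA_const]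

theorem ev_sg (z : J8) (w : Fin 7 → ℝ) (v p n : ℕ) (hv : v < 16) :
    ev (X z w) (sg v p n) = ((p : ℂ) - n) * X z w v := by
  show ((p : ℂ) - n) * mon _ (pr v) + 0 = _
  rw [mon_pr _ (X_15 z w) _ hv, add_zero]

theorem ev_two (z : J8) (w : Fin 7 → ℝ) (v u : ℕ) (hv : v < 16) (hu : u < 16) :
    ev (X z w) (two v u) = X z w v + X z w u := by
  show (((1 : ℕ) : ℂ) - ((0 : ℕ) : ℂ)) * mon _ (pr v) + ev _ (sg u 1 0) = _
  rw [mon_pr _ (X_15 z w) _ hv, ev_sg z w u 1 0 hu]
  push_cast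
  ring

theorem ev_s1 (z : J8) (w : Fin 7 → ℝ) (v : ℕ) (hv : v < 16) : ev (X z w) (s1 v) = X z w v := by
  rw [s1, ev_sg z w v 1 0 hv]
  push_cast
  ring

theorem ev_n1 (z : J8) (w : Fin 7 → ℝ) (v : ℕ) (hv : v < 16) :
    ev (X z w) (n1 v) = -X z w v := by
  rw [n1, ev_sg z w v 0 1 hv]
  push_cast
  ring

theorem ev_s2 (z : J8) (w : Fin 7 → ℝ) (v : ℕ) (hv : v < 16) :
    ev (X z w) (s2 v) = 2 * X z w v := by
  rw [s2, ev_sg z w v 2 0 hv]
  push_cast
  ring

theorem HJ.zero (z : J8) (w : Fin 7 → ℝ) : HJ (fun _ => 0) z w ⟨PL.Z, PL.Z, PL.Z, PL.Z, PL.Z⟩ := by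
  refine ⟨contDiff_const, rfl, ?_, ?_, ?_, ?_⟩ <;> simp [DA_const, LA_const]

theorem HJ.of_var (z : J8) (w : Fin 7 → ℝ) (v : ℕ) (hv : v < 8) (r : R5)
    (h1 : ev (X z w) r.v = X z w v) (h2 : ev (X z w) r.a = ∑ k, cf v k * (Am z w 0 k : ℝ))
    (h3 : ev (X z w) r.p = ∑ k, cf v k * (Am z w 1 k : ℝ) +
      Complex.I * ∑ k, cf v k * (Am z w 2 k : ℝ))
    (h4 : ev (X z w) r.q = ∑ k, cf v k * (Am z w 1 k : ℝ) -
      Complex.I * ∑ k, cf v k * (Am z w 2 k : ℝ))
    (h5 : ev (X z w) r.l = ∑ k, cf v k * (Bm w k : ℝ)) : HJ (U v) z w r := by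
  refine ⟨sm_U v, ?_, ?_, ?_, ?_, ?_⟩
  · rw [h1, X_lt z w v hv]
  · rw [h2, DA_U]
  · rw [h3, DA_U, DA_U]
  · rw [h4, DA_U, DA_U]
  · rw [h5, LA_U]

theorem HJ.var0 (z : J8) (w : Fin 7 → ℝ) : HJ (U 0) z w (jv 0) := by
  have h : jv 0 = ⟨s1 0, s1 1, s1 4, s1 5, PL.Z⟩ := rfl
  rw [h]
  refine HJ.of_var z w 0 (by norm_num) _ ?_ ?_ ?_ ?_ ?_
  · exact ev_s1 z w 0 (by norm_num)
  all_goals
    simp only [ev_s1, ev_n1, ev_s2, ev_two, ev_Z, Nat.reduceLT, X, U, V, cf, Am, Bm,
      Fin.sum_univ_eight, Matrix.cons_val, Pi.zero_apply, mul_zero, add_zero, zero_add]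
    push_cast
    ring_nf
    try simp only [Complex.I_sq]
    try ring_nf

theorem HJ.var1 (z : J8) (w : Fin 7 → ℝ) : HJ (U 1) z w (jv 1) := by
  have h : jv 1 = ⟨s1 1, two 1 8, s1 9, s1 10, s2 8⟩ := rfl
  rw [h]
  refine HJ.of_var z w 1 (by norm_num) _ ?_ ?_ ?_ ?_ ?_
  · exact ev_s1 z w 1 (by norm_num)
  all_goals
    simp only [ev_s1, ev_n1, ev_s2, ev_two, ev_Z, Nat.reduceLT, X, U, V, cf, Am, Bm,
      Fin.sum_univ_eight, Matrix.cons_val, Pi.zero_apply, mul_zero, add_zero, zero_add]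
    push_cast
    ring_nf
    try simp only [Complex.I_sq]
    try ring_nf

theorem HJ.var2 (z : J8) (w : Fin 7 → ℝ) : HJ (U 2) z w (jv 2) := by
  have h : jv 2 = ⟨s1 2, s1 4, s1 6, n1 1, PL.Z⟩ := rfl
  rw [h]
  refine HJ.of_var z w 2 (by norm_num) _ ?_ ?_ ?_ ?_ ?_
  · exact ev_s1 z w 2 (by norm_num)
  all_goals
    simp only [ev_s1, ev_n1, ev_s2, ev_two, ev_Z, Nat.reduceLT, X, U, V, cf, Am, Bm,
      Fin.sum_univ_eight, Matrix.cons_val, Pi.zero_apply, mul_zero, add_zero, zero_add]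
    push_cast
    ring_nf
    try simp only [Complex.I_sq]
    try ring_nf

theorem HJ.var3 (z : J8) (w : Fin 7 → ℝ) : HJ (U 3) z w (jv 3) := by
  have h : jv 3 = ⟨s1 3, s1 5, n1 1, s1 7, PL.Z⟩ := rfl
  rw [h]
  refine HJ.of_var z w 3 (by norm_num) _ ?_ ?_ ?_ ?_ ?_
  · exact ev_s1 z w 3 (by norm_num)
  all_goals
    simp only [ev_s1, ev_n1, ev_s2, ev_two, ev_Z, Nat.reduceLT, X, U, V, cf, Am, Bm,
      Fin.sum_univ_eight, Matrix.cons_val, Pi.zero_apply, mul_zero, add_zero, zero_add]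
    push_cast
    ring_nf
    try simp only [Complex.I_sq]
    try ring_nf

theorem HJ.var4 (z : J8) (w : Fin 7 → ℝ) : HJ (U 4) z w (jv 4) := by
  have h : jv 4 = ⟨s1 4, two 4 9, s1 11, n1 8, s2 9⟩ := rfl
  rw [h]
  refine HJ.of_var z w 4 (by norm_num) _ ?_ ?_ ?_ ?_ ?_
  · exact ev_s1 z w 4 (by norm_num)
  all_goals
    simp only [ev_s1, ev_n1, ev_s2, ev_two, ev_Z, Nat.reduceLT, X, U, V, cf, Am, Bm,
      Fin.sum_univ_eight, Matrix.cons_val, Pi.zero_apply, mul_zero, add_zero, zero_add]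
    push_cast
    ring_nf
    try simp only [Complex.I_sq]
    try ring_nf

theorem HJ.var5 (z : J8) (w : Fin 7 → ℝ) : HJ (U 5) z w (jv 5) := by
  have h : jv 5 = ⟨s1 5, two 5 10, n1 8, s1 12, s2 10⟩ := rfl
  rw [h]
  refine HJ.of_var z w 5 (by norm_num) _ ?_ ?_ ?_ ?_ ?_
  · exact ev_s1 z w 5 (by norm_num)
  all_goals
    simp only [ev_s1, ev_n1, ev_s2, ev_two, ev_Z, Nat.reduceLT, X, U, V, cf, Am, Bm,
      Fin.sum_univ_eight, Matrix.cons_val, Pi.zero_apply, mul_zero, add_zero, zero_add]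
    push_cast
    ring_nf
    try simp only [Complex.I_sq]
    try ring_nf

theorem HJ.var6 (z : J8) (w : Fin 7 → ℝ) : HJ (U 6) z w (jv 6) := by
  have h : jv 6 = ⟨s1 6, two 6 11, s1 13, n1 9, s2 11⟩ := rfl
  rw [h]
  refine HJ.of_var z w 6 (by norm_num) _ ?_ ?_ ?_ ?_ ?_
  · exact ev_s1 z w 6 (by norm_num)
  all_goals
    simp only [ev_s1, ev_n1, ev_s2, ev_two, ev_Z, Nat.reduceLT, X, U, V, cf, Am, Bm,
      Fin.sum_univ_eight, Matrix.cons_val, Pi.zero_apply, mul_zero, add_zero, zero_add]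
    push_cast
    ring_nf
    try simp only [Complex.I_sq]
    try ring_nf

theorem HJ.var7 (z : J8) (w : Fin 7 → ℝ) : HJ (U 7) z w (jv 7) := by
  have h : jv 7 = ⟨s1 7, two 7 12, n1 10, s1 14, s2 12⟩ := rfl
  rw [h]
  refine HJ.of_var z w 7 (by norm_num) _ ?_ ?_ ?_ ?_ ?_
  · exact ev_s1 z w 7 (by norm_num)
  all_goals
    simp only [ev_s1, ev_n1, ev_s2, ev_two, ev_Z, Nat.reduceLT, X, U, V, cf, Am, Bm,
      Fin.sum_univ_eight, Matrix.cons_val, Pi.zero_apply, mul_zero, add_zero, zero_add]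
    push_cast
    ring_nf
    try simp only [Complex.I_sq]
    try ring_nf

theorem HJ.var (z : J8) (w : Fin 7 → ℝ) (v : ℕ) (hv : v < 16) : HJ (U v) z w (jv v) := by
  rcases lt_or_ge v 8 with h | h
  · interval_cases v
    · exact HJ.var0 z w
    · exact HJ.var1 z w
    · exact HJ.var2 z w
    · exact HJ.var3 z w
    · exact HJ.var4 z w
    · exact HJ.var5 z w
    · exact HJ.var6 z w
    · exact HJ.var7 z w
  · have h1 : U v = fun _ => 0 := funext fun y => U_ge v h y
    have h2 : jv v = ⟨PL.Z, PL.Z, PL.Z, PL.Z, PL.Z⟩ := by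
      interval_cases v <;> rfl
    rw [h1, h2]
    exact HJ.zero z w

/-! ### polynomials -/

/-- the monomial with the code `c` -/
noncomputable def mf (f : ℕ → ℕ) : ℕ → ℕ → J8 → ℂ
  | 0, _ => fun _ => 1
  | d + 1, c => fun y => U (f (c % 16)) y * mf f d (c / 16) y

theorem jm_succ (f : ℕ → ℕ) (d c : ℕ) :
    jm f (d + 1) c = mulR (jv (f (c % 16))) (jm f d (c / 16)) := by
  rw [← land_15, ← shr_4]
  rfl

theorem HJ.mono (z : J8) (w : Fin 7 → ℝ) (f : ℕ → ℕ) (hf : ∀ v < 16, f v < 16) (d c : ℕ) :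
    HJ (mf f d c) z w (jm f d c) := by
  induction d generalizing c with
  | zero => exact HJ.one z w
  | succ d ih =>
    rw [jm_succ]
    exact (HJ.var z w _ (hf _ (Nat.mod_lt _ (by norm_num)))).mul (ih _)

/-- the polynomial with the terms `(c, p, n)` of `q` -/
noncomputable def pf (f : ℕ → ℕ) (d : ℕ) : PL → J8 → ℂ
  | PL.Z => fun _ => 0
  | PL.C c p n l => fun y => ((p : ℂ) - n) * mf f d c y + pf f d l y

theorem sm_mf (f : ℕ → ℕ) (d c : ℕ) : Sm (mf f d c) := by
  induction d generalizing c with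
  | zero => exact contDiff_const
  | succ d ih => exact (sm_U _).mul (ih _)

theorem sm_pf (f : ℕ → ℕ) (d : ℕ) (q : PL) : Sm (pf f d q) := by
  induction q with
  | Z => exact contDiff_const
  | C c p n l ih => exact (contDiff_const.mul (sm_mf f d c)).add ih

theorem DA_cmul (c : ℂ) {f : J8 → ℂ} (hf : Sm f) (z : J8) (w : Fin 7 → ℝ) (i : Fin 3) :
    DA (fun y => c * f y) z w i = c * DA f z w i := by
  rw [DA_mul (f := fun _ => c) contDiff_const hf, DA_const]
  ring

theorem LA_cmul (c : ℂ) {f : J8 → ℂ} (hf : Sm f) (z : J8) (w : Fin 7 → ℝ) :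
    LA (fun y => c * f y) z w = c * LA f z w := by
  rw [LA_mul (f := fun _ => c) contDiff_const hf, LA_const]
  simp [DA_const]

theorem evL_trs (x : ℕ → ℂ) (g : ℕ → PL) (c p n : ℕ) (l : PL) :
    evL x (trs g (PL.C c p n l)) = ((p : ℂ) - n) * ev x (g c) + evL x (trs g l) := by
  have h : trs g (PL.C c p n l) = LL.C (tm 1 p n (g c)) (trs g l) := rfl
  rw [h, evL, ev_tm, mon_one]
  ring

section

variable (z : J8) (w : Fin 7 → ℝ) (f : ℕ → ℕ) (hf : ∀ v < 16, f v < 16) (d : ℕ) (q : PL)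

include hf

theorem ev_qv : ev (X z w) (qv f d q) = pf f d q z := by
  rw [qv, ev_sm]
  induction q with
  | Z => rfl
  | C c p n l ih =>
    rw [evL_trs, ih]
    show _ * ev _ (jm f d c).v + _ = _
    rw [(HJ.mono z w f hf d c).v]
    rfl

theorem ev_qa : ev (X z w) (qa f d q) = DA (pf f d q) z w 0 := by
  rw [qa, ev_sm]
  induction q with
  | Z => exact (DA_const 0 z w 0).symm
  | C c p n l ih =>
    rw [evL_trs, ih]
    show _ * ev _ (jm f d c).a + _ = DA (fun y => ((p : ℂ) - n) * mf f d c y + pf f d l y) z w 0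
    rw [(HJ.mono z w f hf d c).a, DA_add (contDiff_const.mul (sm_mf f d c)) (sm_pf f d l),
      DA_cmul _ (sm_mf f d c)]

theorem ev_qp : ev (X z w) (qp f d q) =
    DA (pf f d q) z w 1 + Complex.I * DA (pf f d q) z w 2 := by
  rw [qp, ev_sm]
  induction q with
  | Z =>
    show 0 = DA (fun _ => 0) z w 1 + Complex.I * DA (fun _ => 0) z w 2
    rw [DA_const, DA_const]
    ring
  | C c p n l ih =>
    rw [evL_trs, ih]
    show _ * ev _ (jm f d c).p + _ =
      DA (fun y => ((p : ℂ) - n) * mf f d c y + pf f d l y) z w 1 +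
      Complex.I * DA (fun y => ((p : ℂ) - n) * mf f d c y + pf f d l y) z w 2
    rw [(HJ.mono z w f hf d c).p, DA_add (contDiff_const.mul (sm_mf f d c)) (sm_pf f d l),
      DA_add (contDiff_const.mul (sm_mf f d c)) (sm_pf f d l),
      DA_cmul _ (sm_mf f d c), DA_cmul _ (sm_mf f d c)]
    ring

theorem ev_qq : ev (X z w) (qq f d q) =
    DA (pf f d q) z w 1 - Complex.I * DA (pf f d q) z w 2 := by
  rw [qq, ev_sm]
  induction q with
  | Z =>
    show 0 = DA (fun _ => 0) z w 1 - Complex.I * DA (fun _ => 0) z w 2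
    rw [DA_const, DA_const]
    ring
  | C c p n l ih =>
    rw [evL_trs, ih]
    show _ * ev _ (jm f d c).q + _ =
      DA (fun y => ((p : ℂ) - n) * mf f d c y + pf f d l y) z w 1 -
      Complex.I * DA (fun y => ((p : ℂ) - n) * mf f d c y + pf f d l y) z w 2
    rw [(HJ.mono z w f hf d c).q, DA_add (contDiff_const.mul (sm_mf f d c)) (sm_pf f d l),
      DA_add (contDiff_const.mul (sm_mf f d c)) (sm_pf f d l),
      DA_cmul _ (sm_mf f d c), DA_cmul _ (sm_mf f d c)]
    ring

theorem ev_ql : ev (X z w) (ql f d q) = LA (pf f d q) z w := by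
  rw [ql, ev_sm]
  induction q with
  | Z => exact (LA_const 0 z w).symm
  | C c p n l ih =>
    rw [evL_trs, ih]
    show _ * ev _ (jm f d c).l + _ = LA (fun y => ((p : ℂ) - n) * mf f d c y + pf f d l y) z w
    rw [(HJ.mono z w f hf d c).l, LA_add (contDiff_const.mul (sm_mf f d c)) (sm_pf f d l),
      LA_cmul _ (sm_mf f d c)]

end

/-! ### conjugation -/

theorem U_br (v : ℕ) (hv : v < 16) (z : J8) : U (br v) z = (starRingEnd ℂ) (U v z) := by
  interval_cases v
  · show U 0 z = _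
    simp only [U, cf, Fin.sum_univ_eight, Matrix.cons_val, Pi.zero_apply, mul_zero, add_zero,
      zero_add, map_add, map_mul, map_neg, map_one, map_zero, map_ofNat, Complex.conj_ofReal,
      Complex.conj_I, mul_one, neg_neg, mul_neg]
  · show U 1 z = _
    simp only [U, cf, Fin.sum_univ_eight, Matrix.cons_val, Pi.zero_apply, mul_zero, add_zero,
      zero_add, map_add, map_mul, map_neg, map_one, map_zero, map_ofNat, Complex.conj_ofReal,
      Complex.conj_I, mul_one, neg_neg, mul_neg]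
  · show U 3 z = _
    simp only [U, cf, Fin.sum_univ_eight, Matrix.cons_val, Pi.zero_apply, mul_zero, add_zero,
      zero_add, map_add, map_mul, map_neg, map_one, map_zero, map_ofNat, Complex.conj_ofReal,
      Complex.conj_I, mul_one, neg_neg, mul_neg]
  · show U 2 z = _
    simp only [U, cf, Fin.sum_univ_eight, Matrix.cons_val, Pi.zero_apply, mul_zero, add_zero,
      zero_add, map_add, map_mul, map_neg, map_one, map_zero, map_ofNat, Complex.conj_ofReal,
      Complex.conj_I, mul_one, neg_neg, mul_neg]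
  · show U 5 z = _
    simp only [U, cf, Fin.sum_univ_eight, Matrix.cons_val, Pi.zero_apply, mul_zero, add_zero,
      zero_add, map_add, map_mul, map_neg, map_one, map_zero, map_ofNat, Complex.conj_ofReal,
      Complex.conj_I, mul_one, neg_neg, mul_neg]
  · show U 4 z = _
    simp only [U, cf, Fin.sum_univ_eight, Matrix.cons_val, Pi.zero_apply, mul_zero, add_zero,
      zero_add, map_add, map_mul, map_neg, map_one, map_zero, map_ofNat, Complex.conj_ofReal,
      Complex.conj_I, mul_one, neg_neg, mul_neg]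
  · show U 7 z = _
    simp only [U, cf, Fin.sum_univ_eight, Matrix.cons_val, Pi.zero_apply, mul_zero, add_zero,
      zero_add, map_add, map_mul, map_neg, map_one, map_zero, map_ofNat, Complex.conj_ofReal,
      Complex.conj_I, mul_one, neg_neg, mul_neg]
  · show U 6 z = _
    simp only [U, cf, Fin.sum_univ_eight, Matrix.cons_val, Pi.zero_apply, mul_zero, add_zero,
      zero_add, map_add, map_mul, map_neg, map_one, map_zero, map_ofNat, Complex.conj_ofReal,
      Complex.conj_I, mul_one, neg_neg, mul_neg]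
  · show U 8 z = _
    simp only [U, cf, Fin.sum_univ_eight, Matrix.cons_val, Pi.zero_apply, mul_zero, add_zero,
      zero_add, map_add, map_mul, map_neg, map_one, map_zero, map_ofNat, Complex.conj_ofReal,
      Complex.conj_I, mul_one, neg_neg, mul_neg]
  · show U 10 z = _
    simp only [U, cf, Fin.sum_univ_eight, Matrix.cons_val, Pi.zero_apply, mul_zero, add_zero,
      zero_add, map_add, map_mul, map_neg, map_one, map_zero, map_ofNat, Complex.conj_ofReal,
      Complex.conj_I, mul_one, neg_neg, mul_neg]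
  · show U 9 z = _
    simp only [U, cf, Fin.sum_univ_eight, Matrix.cons_val, Pi.zero_apply, mul_zero, add_zero,
      zero_add, map_add, map_mul, map_neg, map_one, map_zero, map_ofNat, Complex.conj_ofReal,
      Complex.conj_I, mul_one, neg_neg, mul_neg]
  · show U 12 z = _
    simp only [U, cf, Fin.sum_univ_eight, Matrix.cons_val, Pi.zero_apply, mul_zero, add_zero,
      zero_add, map_add, map_mul, map_neg, map_one, map_zero, map_ofNat, Complex.conj_ofReal,
      Complex.conj_I, mul_one, neg_neg, mul_neg]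
  · show U 11 z = _
    simp only [U, cf, Fin.sum_univ_eight, Matrix.cons_val, Pi.zero_apply, mul_zero, add_zero,
      zero_add, map_add, map_mul, map_neg, map_one, map_zero, map_ofNat, Complex.conj_ofReal,
      Complex.conj_I, mul_one, neg_neg, mul_neg]
  · show U 14 z = _
    simp only [U, cf, Fin.sum_univ_eight, Matrix.cons_val, Pi.zero_apply, mul_zero, add_zero,
      zero_add, map_add, map_mul, map_neg, map_one, map_zero, map_ofNat, Complex.conj_ofReal,
      Complex.conj_I, mul_one, neg_neg, mul_neg]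
  · show U 13 z = _
    simp only [U, cf, Fin.sum_univ_eight, Matrix.cons_val, Pi.zero_apply, mul_zero, add_zero,
      zero_add, map_add, map_mul, map_neg, map_one, map_zero, map_ofNat, Complex.conj_ofReal,
      Complex.conj_I, mul_one, neg_neg, mul_neg]
  · show U 15 z = _
    simp only [U, cf, Fin.sum_univ_eight, Matrix.cons_val, Pi.zero_apply, mul_zero, add_zero,
      zero_add, map_add, map_mul, map_neg, map_one, map_zero, map_ofNat, Complex.conj_ofReal,
      Complex.conj_I, mul_one, neg_neg, mul_neg]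

theorem V_br (v : ℕ) (hv : v < 16) (w : Fin 7 → ℝ) : V (br v) w = (starRingEnd ℂ) (V v w) := by
  interval_cases v
  · show V 0 w = _
    simp only [V, map_add, map_sub, map_mul, map_neg, map_zero, map_ofNat, Complex.conj_ofReal,
      Complex.conj_I]
    try ring
  · show V 1 w = _
    simp only [V, map_add, map_sub, map_mul, map_neg, map_zero, map_ofNat, Complex.conj_ofReal,
      Complex.conj_I]
    try ring
  · show V 3 w = _
    simp only [V, map_add, map_sub, map_mul, map_neg, map_zero, map_ofNat, Complex.conj_ofReal,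
      Complex.conj_I]
    try ring
  · show V 2 w = _
    simp only [V, map_add, map_sub, map_mul, map_neg, map_zero, map_ofNat, Complex.conj_ofReal,
      Complex.conj_I]
    try ring
  · show V 5 w = _
    simp only [V, map_add, map_sub, map_mul, map_neg, map_zero, map_ofNat, Complex.conj_ofReal,
      Complex.conj_I]
    try ring
  · show V 4 w = _
    simp only [V, map_add, map_sub, map_mul, map_neg, map_zero, map_ofNat, Complex.conj_ofReal,
      Complex.conj_I]
    try ring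
  · show V 7 w = _
    simp only [V, map_add, map_sub, map_mul, map_neg, map_zero, map_ofNat, Complex.conj_ofReal,
      Complex.conj_I]
    try ring
  · show V 6 w = _
    simp only [V, map_add, map_sub, map_mul, map_neg, map_zero, map_ofNat, Complex.conj_ofReal,
      Complex.conj_I]
    try ring
  · show V 8 w = _
    simp only [V, map_add, map_sub, map_mul, map_neg, map_zero, map_ofNat, Complex.conj_ofReal,
      Complex.conj_I]
    try ring
  · show V 10 w = _
    simp only [V, map_add, map_sub, map_mul, map_neg, map_zero, map_ofNat, Complex.conj_ofReal,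
      Complex.conj_I]
    try ring
  · show V 9 w = _
    simp only [V, map_add, map_sub, map_mul, map_neg, map_zero, map_ofNat, Complex.conj_ofReal,
      Complex.conj_I]
    try ring
  · show V 12 w = _
    simp only [V, map_add, map_sub, map_mul, map_neg, map_zero, map_ofNat, Complex.conj_ofReal,
      Complex.conj_I]
    try ring
  · show V 11 w = _
    simp only [V, map_add, map_sub, map_mul, map_neg, map_zero, map_ofNat, Complex.conj_ofReal,
      Complex.conj_I]
    try ring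
  · show V 14 w = _
    simp only [V, map_add, map_sub, map_mul, map_neg, map_zero, map_ofNat, Complex.conj_ofReal,
      Complex.conj_I]
    try ring
  · show V 13 w = _
    simp only [V, map_add, map_sub, map_mul, map_neg, map_zero, map_ofNat, Complex.conj_ofReal,
      Complex.conj_I]
    try ring
  · show V 15 w = _
    simp only [V, map_add, map_sub, map_mul, map_neg, map_zero, map_ofNat, Complex.conj_ofReal,
      Complex.conj_I]
    try ring

theorem X_br (z : J8) (w : Fin 7 → ℝ) (v : ℕ) (hv : v < 16) :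
    X z w (br v) = (starRingEnd ℂ) (X z w v) := by
  unfold X
  rw [U_br v hv, V_br v hv, map_add]

theorem mf_br (d c : ℕ) (z : J8) : mf br d c z = (starRingEnd ℂ) (mf idn d c z) := by
  induction d generalizing c with
  | zero => simp [mf]
  | succ d ih =>
    show U (br (c % 16)) z * mf br d (c / 16) z =
      (starRingEnd ℂ) (U (idn (c % 16)) z * mf idn d (c / 16) z)
    rw [ih, map_mul, U_br _ (Nat.mod_lt _ (by norm_num))]
    rfl

theorem pf_br (d : ℕ) (q : PL) (z : J8) : pf br d q z = (starRingEnd ℂ) (pf idn d q z) := by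
  induction q with
  | Z => simp [pf]
  | C c p n l ih =>
    show ((p : ℂ) - n) * mf br d c z + pf br d l z =
      (starRingEnd ℂ) (((p : ℂ) - n) * mf idn d c z + pf idn d l z)
    rw [ih, mf_br]
    simp

end Pool.Agent.Work.MP_440970_an.FX
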