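import Pool.Agent.Work.MP_440970_an.Bdx.B08
import Pool.Agent.Work.MP_440970_an.Bdx.B01
import Pool.Agent.Work.MP_440970_an.FX.D1.Data
import Pool.Agent.Work.MP_440970_an.FX.D1.U0
import Pool.Agent.Work.MP_440970_an.FX.D1.U1
import Pool.Agent.Work.MP_440970_an.FX.D1.U2
import Pool.Agent.Work.MP_440970_an.FX.D1.U3
import Pool.Agent.Work.MP_440970_an.FX.D1.U4
import Pool.Agent.Work.MP_440970_an.FX.D1.U5
import Pool.Agent.Work.MP_440970_an.FX.D1.U6
import Pool.Agent.Work.MP_440970_an.FX.D1.U7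
import Pool.Agent.Work.MP_440970_an.FX.D1.U8
import Pool.Agent.Work.MP_440970_an.FX.D1.U9

/-!
# The flux certificate for `p = 13 / 35`
-/

set_option autoImplicit false
set_option maxRecDepth 100000

open Finset
open scoped ContDiff

namespace Pool.Agent.Work.MP_440970_an.FX

open FC SC

/-! ### the value at a constant horizontal field -/

/-- all digits are `2` or `3` -/
noncomputable def hz (d : ℕ) : ℕ → Bool :=
  Nat.rec (motive := fun _ => ℕ → Bool) (fun _ => true)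
    (fun _ ih c => Bool.rec (motive := fun _ => Bool)
      (Bool.rec (motive := fun _ => Bool) false (ih (Nat.div c 16)) (Nat.beq (Nat.mod c 16) 3))
      (ih (Nat.div c 16)) (Nat.beq (Nat.mod c 16) 2)) d

/-- sum of the coefficients of the monomials in the variables `2`, `3` -/
noncomputable def sp (d : ℕ) (q : PL) : ℕ :=
  PL.rec (motive := fun _ => ℕ) 0 (fun c p _ _ ih => Bool.rec (motive := fun _ => ℕ) ih
    (Nat.add p ih) (hz d c)) q

@[inherit_doc sp] noncomputable def sn (d : ℕ) (q : PL) : ℕ :=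
  PL.rec (motive := fun _ => ℕ) 0 (fun c _ n _ ih => Bool.rec (motive := fun _ => ℕ) ih
    (Nat.add n ih) (hz d c)) q

/-- the horizontal unit vector -/
def ez : J8 := jt ![0, 1, 0]

theorem U_ez (v : ℕ) : U v ez = if v = 2 ∨ v = 3 then 1 else 0 := by
  rcases lt_or_ge v 8 with h | h
  · interval_cases v <;> simp [U, cf, ez, jt, Fin.sum_univ_eight]
  · rw [U_ge v h, if_neg (by omega)]

theorem hz_succ (d c : ℕ) : hz (d + 1) c = ((decide (c % 16 = 2) || decide (c % 16 = 3)) &&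
    hz d (c / 16)) := by
  have h : hz (d + 1) c = Bool.rec (motive := fun _ => Bool)
      (Bool.rec (motive := fun _ => Bool) false (hz d (c / 16)) (Nat.beq (c % 16) 3))
      (hz d (c / 16)) (Nat.beq (c % 16) 2) := rfl
  rw [h]
  by_cases h2 : c % 16 = 2
  · rw [h2]
    simp
  · have e2 : Nat.beq (c % 16) 2 = false := by
      cases h3 : Nat.beq (c % 16) 2
      · rfl
      · exact absurd (Nat.eq_of_beq_eq_true h3) h2
    rw [e2]
    by_cases h3 : c % 16 = 3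
    · rw [h3]
      simp
    · have e3 : Nat.beq (c % 16) 3 = false := by
        cases h4 : Nat.beq (c % 16) 3
        · rfl
        · exact absurd (Nat.eq_of_beq_eq_true h4) h3
      rw [e3]
      simp [h2, h3]

theorem mf_ez (d c : ℕ) : mf idn d c ez = if hz d c = true then 1 else 0 := by
  induction d generalizing c with
  | zero => rfl
  | succ d ih =>
    show U (c % 16) ez * mf idn d (c / 16) ez = _
    rw [ih, U_ez, hz_succ]
    by_cases h1 : c % 16 = 2 ∨ c % 16 = 3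
    · rw [if_pos h1]
      rcases h1 with h1 | h1 <;> simp [h1]
    · rw [if_neg h1]
      push Not at h1
      simp [h1.1, h1.2]

theorem pf_ez (d : ℕ) (q : PL) : pf idn d q ez = (sp d q : ℂ) - sn d q := by
  induction q with
  | Z => simp [pf, sp, sn]
  | C c p n l ih =>
    have h1 : sp d (PL.C c p n l) = Bool.rec (motive := fun _ => ℕ) (sp d l)
      (p + sp d l) (hz d c) := rfl
    have h2 : sn d (PL.C c p n l) = Bool.rec (motive := fun _ => ℕ) (sn d l)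
      (n + sn d l) (hz d c) := rfl
    show ((p : ℂ) - n) * mf idn d c ez + pf idn d l ez = _
    rw [ih, mf_ez, h1, h2]
    cases hz d c
    · simp
    · simp
      ring

/-! ### the quadratic form -/

/-- the quadratic form with integer coefficients -/
theorem pf_qN (z : J8) : pf idn 2 D1.qN z = ((16 * z 0 ^ 2 + 6 * z 0 * (-z 5 - z 7) +
    6 * (-z 5 - z 7) ^ 2 + 20 * (z 1 ^ 2 + z 2 ^ 2) + 6 * (z 1 * z 3 + z 2 * z 4) +
    8 * (z 3 ^ 2 + z 4 ^ 2) + 2 * ((z 5 - z 7) ^ 2 + 4 * z 6 ^ 2) : ℝ) : ℂ) := by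
  have h : pf idn 2 D1.qN z =
      (((16 : ℕ) : ℂ) - ((0 : ℕ) : ℂ)) * (U 0 z * (U 0 z * 1)) +
      ((((6 : ℕ) : ℂ) - ((0 : ℕ) : ℂ)) * (U 0 z * (U 1 z * 1)) +
      ((((6 : ℕ) : ℂ) - ((0 : ℕ) : ℂ)) * (U 1 z * (U 1 z * 1)) +
      ((((20 : ℕ) : ℂ) - ((0 : ℕ) : ℂ)) * (U 2 z * (U 3 z * 1)) +
      ((((3 : ℕ) : ℂ) - ((0 : ℕ) : ℂ)) * (U 2 z * (U 5 z * 1)) +
      ((((3 : ℕ) : ℂ) - ((0 : ℕ) : ℂ)) * (U 3 z * (U 4 z * 1)) +
      ((((8 : ℕ) : ℂ) - ((0 : ℕ) : ℂ)) * (U 4 z * (U 5 z * 1)) +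
      ((((2 : ℕ) : ℂ) - ((0 : ℕ) : ℂ)) * (U 6 z * (U 7 z * 1)) + 0))))))) := rfl
  rw [h]
  simp only [U, cf, Fin.sum_univ_eight, Matrix.cons_val, mul_zero, add_zero, zero_add]
  push_cast
  have hI : Complex.I * Complex.I = -1 := Complex.I_mul_I
  linear_combination (-20 * (z 2 : ℂ) ^ 2 - 6 * (z 2 : ℂ) * z 4 - 8 * (z 4 : ℂ) ^ 2 -
    8 * (z 6 : ℂ) ^ 2) * hI

theorem Nf_eq (z : J8) : Nf D1.qN z = 16 * z 0 ^ 2 + 6 * z 0 * (-z 5 - z 7) +
    6 * (-z 5 - z 7) ^ 2 + 20 * (z 1 ^ 2 + z 2 ^ 2) + 6 * (z 1 * z 3 + z 2 * z 4) +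
    8 * (z 3 ^ 2 + z 4 ^ 2) + 2 * ((z 5 - z 7) ^ 2 + 4 * z 6 ^ 2) := by
  unfold Nf
  rw [pf_qN]
  exact Complex.ofReal_re _

theorem Nf_pos (z : J8) (hz : z ≠ 0) : 0 < Nf D1.qN z := by
  rw [Nf_eq]
  by_contra hn
  push Not at hn
  have h0 : z 0 ^ 2 + (-z 5 - z 7) ^ 2 + z 1 ^ 2 + z 2 ^ 2 + z 3 ^ 2 + z 4 ^ 2 +
      (z 5 - z 7) ^ 2 + z 6 ^ 2 ≤ 0 := by
    nlinarith [sq_nonneg (z 0 + (-z 5 - z 7)), sq_nonneg (z 1 + z 3), sq_nonneg (z 2 + z 4),
      sq_nonneg (z 0), sq_nonneg (z 1), sq_nonneg (z 2), sq_nonneg (z 3), sq_nonneg (z 4),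
      sq_nonneg (-z 5 - z 7), sq_nonneg (z 5 - z 7), sq_nonneg (z 6)]
  have p0 := sq_nonneg (z 0)
  have p1 := sq_nonneg (z 1)
  have p2 := sq_nonneg (z 2)
  have p3 := sq_nonneg (z 3)
  have p4 := sq_nonneg (z 4)
  have p5 := sq_nonneg (-z 5 - z 7)
  have p6 := sq_nonneg (z 5 - z 7)
  have p7 := sq_nonneg (z 6)
  have q0 : z 0 = 0 := pow_eq_zero_iff (two_ne_zero) |>.1 (by linarith)
  have q1 : z 1 = 0 := pow_eq_zero_iff (two_ne_zero) |>.1 (by linarith)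
  have q2 : z 2 = 0 := pow_eq_zero_iff (two_ne_zero) |>.1 (by linarith)
  have q3 : z 3 = 0 := pow_eq_zero_iff (two_ne_zero) |>.1 (by linarith)
  have q4 : z 4 = 0 := pow_eq_zero_iff (two_ne_zero) |>.1 (by linarith)
  have q5 : -z 5 - z 7 = 0 := pow_eq_zero_iff (two_ne_zero) |>.1 (by linarith)
  have q6 : z 5 - z 7 = 0 := pow_eq_zero_iff (two_ne_zero) |>.1 (by linarith)
  have q7 : z 6 = 0 := pow_eq_zero_iff (two_ne_zero) |>.1 (by linarith)
  have q8 : z 5 = 0 := by linarith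
  have q9 : z 7 = 0 := by linarith
  apply hz
  funext k
  fin_cases k <;> assumption

theorem Nf_im (z : J8) : (pf idn 2 D1.qN z).im = 0 := by
  rw [pf_qN]
  exact Complex.ofReal_im _

/-! ### the certificate -/

theorem v_N : sp 2 D1.qN = 20 ∧ sn 2 D1.qN = 0 := by decide +kernel

theorem v_P : sp 4 D1.qP = 22303820000 ∧ sn 4 D1.qP = 0 := by decide +kernel

theorem v_R : sp 6 D1.qR = 0 ∧ sn 6 D1.qR = 113923348000 := by decide +kernel

/-- the function `M` -/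
noncomputable def M1 (z : J8) : ℝ := Nf D1.qN z ^ (-127 / 70 : ℝ) * Pf 4 D1.qP z

/-- the vector field `Y` -/
noncomputable def Y1 (i : Fin 3) (z : J8) : ℝ :=
  Nf D1.qN z ^ ((-127 / 70 : ℝ) - 1) * Rf 6 D1.qR D1.qS i z

theorem gb_pos : 0 < gb M1 Y1 ![0, 1, 0] := by
  have hN : Nf D1.qN ez = 20 := by
    unfold Nf
    rw [pf_ez, v_N.1, v_N.2]
    simp
  have hP : Pf 4 D1.qP ez = 22303820000 := by
    unfold Pf
    rw [pf_ez, v_P.1, v_P.2]
    simp
  have hR : Rf 6 D1.qR D1.qS 0 ez = -113923348000 := by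
    show (pf idn 6 D1.qR ez).re = _
    rw [pf_ez, v_R.1, v_R.2]
    simp
  show 0 < M1 ez - Y1 0 ez
  unfold M1 Y1
  rw [hN, hP, hR]
  have h1 : (0 : ℝ) < (20 : ℝ) ^ (-127 / 70 : ℝ) := Real.rpow_pos_of_pos (by norm_num) _
  have h2 : (0 : ℝ) < (20 : ℝ) ^ ((-127 / 70 : ℝ) - 1) := Real.rpow_pos_of_pos (by norm_num) _
  nlinarith

/-- nonnegative numbers -/
def NN (c : ℂ) : Prop := ∃ r : ℝ, 0 ≤ r ∧ c = r

theorem NN.add {a b : ℂ} (ha : NN a) (hb : NN b) : NN (a + b) := by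
  obtain ⟨r, hr, rfl⟩ := ha
  obtain ⟨s, hs, rfl⟩ := hb
  exact ⟨r + s, add_nonneg hr hs, by push_cast; rfl⟩

theorem NN.zero : NN 0 := ⟨0, le_refl 0, by simp⟩

theorem NN.natMul {a : ℂ} (ha : NN a) (n : ℕ) : NN (n * a) := by
  obtain ⟨r, hr, rfl⟩ := ha
  exact ⟨n * r, by positivity, by push_cast; rfl⟩

/-- the sum of the squares -/
noncomputable def sq1 : PL := sm ((LL.C (grm (nat_lit 78) (nat_lit 33) (nat_lit 18889465931478580854784) (nat_lit 4) D1.us0 D1.cs0)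
      (LL.C (grm (nat_lit 78) (nat_lit 33) (nat_lit 18889465931478580854784) (nat_lit 4) D1.us1 D1.cs1)
      (LL.C (grm (nat_lit 78) (nat_lit 33) (nat_lit 18889465931478580854784) (nat_lit 4) D1.us2 D1.cs2)
      (LL.C (grm (nat_lit 78) (nat_lit 33) (nat_lit 18889465931478580854784) (nat_lit 4) D1.us3 D1.cs3)
      (LL.C (grm (nat_lit 78) (nat_lit 33) (nat_lit 18889465931478580854784) (nat_lit 4) D1.us4 D1.cs4)
      (LL.C (grm (nat_lit 78) (nat_lit 33) (nat_lit 18889465931478580854784) (nat_lit 4) D1.us5 D1.cs5)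
      (LL.C (grm (nat_lit 78) (nat_lit 33) (nat_lit 18889465931478580854784) (nat_lit 4) D1.us6 D1.cs6)
      (LL.C (grm (nat_lit 78) (nat_lit 33) (nat_lit 18889465931478580854784) (nat_lit 4) D1.us7 D1.cs7)
      (LL.C (grm (nat_lit 78) (nat_lit 33) (nat_lit 18889465931478580854784) (nat_lit 4) D1.us8 D1.cs8)
      (LL.C (grm (nat_lit 78) (nat_lit 33) (nat_lit 18889465931478580854784) (nat_lit 4) D1.us9 D1.cs9)
      LL.Z)))))))))))

/-- the identity which is checked by the kernel -/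
def Ident1 : Prop := ∀ x : ℕ → ℂ,
  ev x (sc D1.c1 (lam (nat_lit 127) (nat_lit 70) (nat_lit 4) (nat_lit 6) D1.qN D1.qP D1.qR D1.qS)) =
  ev x (mrg (sc (nat_lit 2) sq1) (its (nat_lit 4) D1.its1))

/-- validity of the data -/
def Gok1 : Prop :=
  gok (nat_lit 78) (nat_lit 33) (nat_lit 18889465931478580854784) D1.us0 D1.cs0 = true ∧
  gok (nat_lit 78) (nat_lit 33) (nat_lit 18889465931478580854784) D1.us1 D1.cs1 = true ∧
  gok (nat_lit 78) (nat_lit 33) (nat_lit 18889465931478580854784) D1.us2 D1.cs2 = true ∧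
  gok (nat_lit 78) (nat_lit 33) (nat_lit 18889465931478580854784) D1.us3 D1.cs3 = true ∧
  gok (nat_lit 78) (nat_lit 33) (nat_lit 18889465931478580854784) D1.us4 D1.cs4 = true ∧
  gok (nat_lit 78) (nat_lit 33) (nat_lit 18889465931478580854784) D1.us5 D1.cs5 = true ∧
  gok (nat_lit 78) (nat_lit 33) (nat_lit 18889465931478580854784) D1.us6 D1.cs6 = true ∧
  gok (nat_lit 78) (nat_lit 33) (nat_lit 18889465931478580854784) D1.us7 D1.cs7 = true ∧
  gok (nat_lit 78) (nat_lit 33) (nat_lit 18889465931478580854784) D1.us8 D1.cs8 = true ∧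
  gok (nat_lit 78) (nat_lit 33) (nat_lit 18889465931478580854784) D1.us9 D1.cs9 = true

theorem nn_sq (hg : Gok1) (z : J8) (w : Fin 7 → ℝ) : NN (ev (X z w) sq1) := by
  obtain ⟨g0, g1, g2, g3, g4, g5, g6, g7, g8, g9⟩ := hg
  have h15 := X_15 z w
  have hb := X_br z w
  unfold sq1
  rw [ev_sm]
  have k : ∀ (W b D : ℕ) (us cs : NL), gok W b D us cs = true →
      NN (ev (X z w) (grm W b D (nat_lit 4) us cs)) := fun W b D us cs h =>
    nn_grm _ h15 hb W b D _ us cs h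
  exact (k _ _ _ _ _ g0).add
    ((k _ _ _ _ _ g1).add
    ((k _ _ _ _ _ g2).add
    ((k _ _ _ _ _ g3).add
    ((k _ _ _ _ _ g4).add
    ((k _ _ _ _ _ g5).add
    ((k _ _ _ _ _ g6).add
    ((k _ _ _ _ _ g7).add
    ((k _ _ _ _ _ g8).add
    ((k _ _ _ _ _ g9).add NN.zero)))))))))

theorem c1_pos : 0 < D1.c1 := by decide +kernel

/-- the polynomial inequality -/
theorem lam_nonneg (hi : Ident1) (hg : Gok1) (z : J8) (w : Fin 7 → ℝ) :
    0 ≤ (ev (X z w) (lam 127 70 4 6 D1.qN D1.qP D1.qR D1.qS)).re := by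
  have h15 := X_15 z w
  have hb := X_br z w
  have h1 : NN (ev (X z w) (mrg (sc (nat_lit 2) sq1) (its (nat_lit 4) D1.its1))) := by
    rw [ev_mrg, ev_sc]
    exact ((nn_sq hg z w).natMul _).add (nn_its _ h15 hb _ _)
  have h2 := hi (X z w)
  rw [ev_sc] at h2
  rw [← h2] at h1
  obtain ⟨r, hr, h3⟩ := h1
  have h4 := congrArg Complex.re h3
  rw [← Complex.ofReal_natCast, Complex.re_ofReal_mul, Complex.ofReal_re] at h4
  have h5 : (0 : ℝ) < (D1.c1 : ℝ) := by exact_mod_cast c1_pos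
  have h6 : 0 ≤ (D1.c1 : ℝ) *
      (ev (X z w) (lam 127 70 4 6 D1.qN D1.qP D1.qR D1.qS)).re := by
    rw [show (D1.c1 : ℝ) * (ev (X z w) (lam 127 70 4 6 D1.qN D1.qP D1.qR D1.qS)).re = r from h4]
    exact hr
  exact nonneg_of_mul_nonneg_right h6 h5

/-- the flux certificate, given the identity -/
theorem cert_of (hi : Ident1) (hg : Gok1) :
    ∃ M Y, FCert (13 / 35) M Y ∧ 0 < gb M Y ![0, 1, 0] := by
  refine ⟨M1, Y1, ?_, gb_pos⟩
  exact fcert_of 4 6 D1.qN D1.qP D1.qR D1.qS 127 70 (-127 / 70) (13 / 35) (by norm_num)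
    (by norm_num) (by norm_num) (by norm_num) (by norm_num) (by norm_num) Nf_im Nf_pos
    (lam_nonneg hi hg)

end Pool.Agent.Work.MP_440970_an.FX
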